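import Pool.Agent.Y735.R.HeightsR

/-!
Limits of points of bounded degree are constant.
-/

set_option autoImplicit false

open MvPolynomial FF Pool.Agent.W603.LV Pool.Agent.W603.PV Pool.Agent.W602.RG
open Pool.Agent.TH145 Pool.Agent.TH145.GH Pool.Agent.TH145.GC
open Pool.Agent.TH145.MG (DimLE)
open scoped IntermediateField

namespace Pool.Agent.Y735.R

variable {k0 K : Type} [Field k0] [Field K] [Algebra k0 K] [IsAlgClosed k0] [IsAlgClosed K]
  [CharZero K]

theorem exists_rig_data_sem {n : ℕ} {A : Type} {dg : A → ℕ} (E : Subfield K)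
    (hE : ∀ r : k0, algebraMap k0 K r ∈ E)
    {F : A → MvPolynomial (Fin (n + 1)) E} {DE : A → (Fin (n + 1) →₀ ℕ) → E → E}
    (hG : GC.Gen F dg DE)
    (D : A → (Fin (n + 1) →₀ ℕ) → Derivation ℤ K K)
    (hDE : ∀ a I (x : E), D a I x = (DE a I x : K))
    (hDk : ∀ a I (r : k0), D a I (algebraMap k0 K r) = 0) {J : Type} [Finite J]
    (z : J → Om K) (hz : ∀ j, z j ∈ OE k0 (E : Set K)) (j1 : J)
    (hj1 : z j1 ∉ acl (cst K '' (E : Set K))) :
    ∃ (κ : Subfield (Om K)) (Λ : IntermediateField κ (Om K)) (φ : E →+* Λ)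
      (D' : A → (Fin (n + 1) →₀ ℕ) → Derivation ℤ Λ Λ),
      IsAlgClosed κ ∧ IsFF κ Λ ∧ (∀ j, z j ∈ Λ) ∧ z j1 ∉ κ ∧
      (∀ x : E, ((φ x : Λ) : Om K) = cst K x) ∧
      Data κ (fun a => map φ (F a)) dg D' (fun _ => 0) ∧ (∀ a I, Sem κ (D' a I)) ∧
      ∀ a I (r : k0), D' a I (φ ⟨algebraMap k0 K r, hE r⟩) = 0 := by
  classical
  obtain ⟨κ, Λ, M, hac, hFF, hEκ, hzΛ, hzκ, -, hMC, hder, hplace⟩ :=
    exists_rig E hE z hz ∅ (by simp) j1 hj1
  have hczOm : CharZero (Om K) :=
    charZero_of_injective_algebraMap (algebraMap K (Om K)).injective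
  have hcz : CharZero κ := charZero_of_injective_algebraMap (algebraMap ℚ κ).injective
  let φ : E →+* Λ :=
    { toFun := fun x => ⟨cst K x, Λ.algebraMap_mem ⟨cst K x, hEκ x x.2⟩⟩
      map_one' := Subtype.ext (map_one (cst K))
      map_mul' := fun a b => Subtype.ext (map_mul (cst K) (a : K) b)
      map_zero' := Subtype.ext (map_zero (cst K))
      map_add' := fun a b => Subtype.ext (map_add (cst K) (a : K) b) }
  have hd := fun a I => hder (hat (D a I)) (fun w hw => hat_CC (D a I) (hDk a I) hw)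
    (fun x hx => ⟨(DE a I ⟨x, hx⟩ : K), (DE a I ⟨x, hx⟩).2, by
      rw [hat_cst, ← hDE a I ⟨x, hx⟩]⟩)
  let D' : A → (Fin (n + 1) →₀ ℕ) → Derivation ℤ Λ Λ := fun a I =>
    resDer Λ (hat (D a I)) (hd a I).2
  have hD' : ∀ a I (x : Λ), ((D' a I x : Λ) : Om K) = hat (D a I) x := fun a I x => rfl
  have hS : ∀ a I, Sem κ (D' a I) := fun a I c => ⟨⟨hat (D a I) c, (hd a I).1 c c.2⟩, rfl⟩
  have hM0 : ∀ a I, ∀ m ∈ M, D' a I m = 0 := by
    intro a I m hm
    apply Subtype.ext
    rw [hD']
    exact hat_CC (D a I) (hDk a I) (hMC m hm)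
  refine ⟨κ, Λ, φ, D', hac, hFF, hzΛ, hzκ, fun x => rfl, ?_, hS, fun a I r => ?_⟩
  · refine hG.data φ D' (fun a I x => ?_) (fun _ => le_rfl) ?_ ?_
    · apply Subtype.ext
      rw [hD']
      change hat (D a I) (cst K x) = cst K (DE a I x)
      rw [hat_cst, hDE]
    · intro P f hf a I _
      rw [neg_zero]
      rcases hplace P with ⟨-, θ, hθM, c, hu⟩ | ⟨π, hπM, hπ⟩
      · refine reg_of_unif P hu (hS a I) le_rfl ?_ hf
        obtain ⟨c', hc'⟩ := hS a I c
        rw [map_sub, hM0 a I θ hθM, hc', zero_sub]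
        exact (Ge.const c').neg
      · refine reg_of_unif P hπ (hS a I) le_rfl ?_ hf
        rw [hM0 a I π hπM]
        exact Ge.zero
    · simp
  · apply Subtype.ext
    rw [hD']
    change hat (D a I) (cst K (algebraMap k0 K r)) = 0
    rw [hat_cst, hDk, map_zero]

theorem coeff_mem {Ω : Type} [Field Ω] (κ : Subfield Ω) (s : Multiset Ω) (h : ∀ w ∈ s, w ∈ κ)
    (j : ℕ) : (s.map fun w => Polynomial.X - Polynomial.C w).prod.coeff j ∈ κ := by
  induction s using Multiset.induction_on generalizing j with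
  | empty =>
    simp only [Multiset.map_zero, Multiset.prod_zero, Polynomial.coeff_one]
    split_ifs
    · exact one_mem _
    · exact zero_mem _
  | cons a s ih =>
    simp only [Multiset.map_cons, Multiset.prod_cons, sub_mul, Polynomial.coeff_sub,
      Polynomial.coeff_C_mul]
    have ih' := ih fun w hw => h w (Multiset.mem_cons_of_mem hw)
    refine sub_mem ?_ (mul_mem (h a (Multiset.mem_cons_self a s)) (ih' j))
    rcases j with _ | j
    · rw [Polynomial.coeff_X_mul_zero]
      exact zero_mem _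
    · rw [Polynomial.coeff_X_mul]
      exact ih' j

/-- A polynomial over one subfield whose coefficients lie in another. -/
theorem exists_lift {Ω O Λ : Type} [Field Ω] [Field O] [Field Λ] (i : O →+* Ω) (j : Λ →+* Ω)
    (p : Polynomial O) (h : ∀ c ∈ p.coeffs, ∃ l : Λ, j l = i c) :
    ∃ q : Polynomial Λ, q.map j = p.map i := by
  have h1 : p.map i ∈ Polynomial.lifts j := by
    rw [Polynomial.lifts_iff_coeff_lifts]
    intro m
    rw [Polynomial.coeff_map]
    by_cases hm : p.coeff m = 0
    · exact ⟨0, by rw [hm, map_zero, map_zero]⟩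
    · exact h _ (Polynomial.coeff_mem_coeffs hm)
  obtain ⟨q, hq⟩ := h1
  exact ⟨q, hq⟩

/-- **Limits of points of bounded degree are constant.** -/
theorem limit_alg {n m r : ℕ} {A : Type} [Fintype A] {dg : A → ℕ} (E : Subfield K)
    (hE : ∀ r : k0, algebraMap k0 K r ∈ E)
    {F : A → MvPolynomial (Fin (n + 1)) E} {DE : A → (Fin (n + 1) →₀ ℕ) → E → E}
    (hG : GC.Gen F dg DE)
    (D : A → (Fin (n + 1) →₀ ℕ) → Derivation ℤ K K)
    (hDE : ∀ a I (x : E), D a I x = (DE a I x : K))
    (hDk : ∀ a I (r : k0), D a I (algebraMap k0 K r) = 0)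
    (hd : 2 * m + 2 * r ≤ ∑ a, (dg a + 1)) (V : Set (MvPolynomial (Fin (n + 1)) k0))
    (hV : DimLE k0 V m)
    (z : Fin (n + 1) → Om K) {l0 : Fin (n + 1)} (hl0 : z l0 = 1)
    (hzV : ∀ f ∈ V, eval₂ ((cst K).comp (algebraMap k0 K)) z f = 0)
    (hzF : ∀ a, eval z (map ((cst K).comp E.subtype) (F a)) = 0)
    (hdeg : ∀ c : Fin (n + 1) → ℕ, ∃ p : Polynomial (OE k0 (E : Set K)), p ≠ 0 ∧
      p.natDegree ≤ r ∧ Polynomial.aeval (∑ j, (c j : Om K) * z j) p = 0) (j : Fin (n + 1)) :
    z j ∈ acl (cst K '' (E : Set K)) := by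
  classical
  by_contra hj
  have hacOm : IsAlgClosed (Om K) := Pool.Agent.W917.RG.GAC.main K
  have hczOm : CharZero (Om K) :=
    charZero_of_injective_algebraMap (algebraMap K (Om K)).injective
  have hczO : CharZero (OE k0 (E : Set K)) :=
    charZero_of_injective_algebraMap (algebraMap ℚ (OE k0 (E : Set K))).injective
  -- the field of the point
  have hint : ∀ j, IsIntegral (OE k0 (E : Set K)) (z j) := by
    intro j
    obtain ⟨p, hp0, -, hp⟩ := hdeg (Pi.single j 1)
    have h1 : ∑ i, ((Pi.single j 1 : Fin (n + 1) → ℕ) i : Om K) * z i = z j := by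
      rw [Finset.sum_eq_single j]
      · simp
      · intro i _ hij
        rw [Pi.single_eq_of_ne hij]
        simp
      · intro h; exact absurd (Finset.mem_univ j) h
    rw [h1] at hp
    have h2 : IsAlgebraic (OE k0 (E : Set K)) (z j) := ⟨p, hp0, hp⟩
    exact h2.isIntegral
  have hfd : FiniteDimensional (OE k0 (E : Set K))
      (IntermediateField.adjoin (OE k0 (E : Set K)) (Set.range z)) := by
    refine IntermediateField.finiteDimensional_adjoin ?_
    rintro _ ⟨j, rfl⟩
    exact hint j
  obtain ⟨z', hz'⟩ : ∃ z' : Fin (n + 1) →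
      IntermediateField.adjoin (OE k0 (E : Set K)) (Set.range z), ∀ j, (z' j : Om K) = z j :=
    ⟨fun j => ⟨z j, IntermediateField.subset_adjoin _ _ ⟨j, rfl⟩⟩, fun _ => rfl⟩
  obtain ⟨t, ht⟩ := exists_comb (OE k0 (E : Set K)) z' (adjoin_top z z' hz')
  have ht := ht t le_rfl
  obtain ⟨θ, hθ⟩ : ∃ θ : IntermediateField.adjoin (OE k0 (E : Set K)) (Set.range z),
      θ = ∑ j : Fin (n + 1), ((t : IntermediateField.adjoin (OE k0 (E : Set K)) (Set.range z))) ^
        (j : ℕ) * z' j := ⟨_, rfl⟩
  rw [← hθ] at ht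
  have hθi : IsIntegral (OE k0 (E : Set K)) θ := Algebra.IsIntegral.isIntegral _
  have hθr : (minpoly (OE k0 (E : Set K)) θ).natDegree ≤ r := by
    obtain ⟨p, hp0, hpr, hp⟩ := hdeg fun j => t ^ (j : ℕ)
    have h1 : ∑ j : Fin (n + 1), ((t ^ (j : ℕ) : ℕ) : Om K) * z j = (θ : Om K) := by
      rw [hθ]
      push_cast
      exact Finset.sum_congr rfl fun j _ => by rw [hz' j]
    rw [h1] at hp
    have h2 : Polynomial.aeval θ p = 0 := by
      apply Subtype.ext
      have h3 := Polynomial.aeval_algebraMap_apply (Om K) θ p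
      exact h3.symm.trans hp
    exact (Polynomial.natDegree_le_natDegree (minpoly.degree_le_of_ne_zero _ θ hp0 h2)).trans hpr
  have hP : ∀ j, ∃ P : Polynomial (OE k0 (E : Set K)), Polynomial.aeval θ P = z' j := by
    intro j
    have h1 : z' j ∈ (OE k0 (E : Set K))⟮θ⟯ := by rw [ht]; trivial
    have h2 : z' j ∈ ((OE k0 (E : Set K))⟮θ⟯).toSubalgebra := h1
    rw [IntermediateField.adjoin_simple_toSubalgebra_of_isAlgebraic hθi.isAlgebraic,
      Algebra.adjoin_singleton_eq_range_aeval] at h2
    exact h2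
  choose P hP using hP
  -- the finite family
  obtain ⟨S, hS⟩ : ∃ S : Finset (OE k0 (E : Set K)), S = (Finset.univ.biUnion fun j =>
    (P j).coeffs) ∪ (minpoly (OE k0 (E : Set K)) θ).coeffs ∪
      (minpoly (OE k0 (E : Set K)) (z' j)).coeffs := ⟨_, rfl⟩
  have hsp : ∃ c ∈ (minpoly (OE k0 (E : Set K)) (z' j)).coeffs,
      (c : Om K) ∉ acl (cst K '' (E : Set K)) := by
    by_contra hcon
    push Not at hcon
    apply hj
    obtain ⟨q, hq⟩ := exists_lift (algebraMap (OE k0 (E : Set K)) (Om K))
      (algebraMap (acl (cst K '' (E : Set K))) (Om K))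
      (minpoly (OE k0 (E : Set K)) (z' j)) (fun c hc => ⟨⟨c, hcon c hc⟩, rfl⟩)
    refine mem_acl_of_alg (F := acl (cst K '' (E : Set K))) le_rfl ⟨q, ?_, ?_⟩
    · intro h0
      rw [h0, Polynomial.map_zero] at hq
      have h1 := (Polynomial.map_eq_zero_iff
        (algebraMap (OE k0 (E : Set K)) (Om K)).injective).1 hq.symm
      exact minpoly.ne_zero (Algebra.IsIntegral.isIntegral (z' j)) h1
    · have h1 : Polynomial.aeval (z j) (minpoly (OE k0 (E : Set K)) (z' j)) = 0 := by
        have h2 := congrArg (algebraMap _ (Om K)) (minpoly.aeval (OE k0 (E : Set K)) (z' j))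
        rw [map_zero, ← Polynomial.aeval_algebraMap_apply] at h2
        have h3 : algebraMap (IntermediateField.adjoin (OE k0 (E : Set K)) (Set.range z)) (Om K)
          (z' j) = z j := hz' j
        rwa [h3] at h2
      rw [Polynomial.aeval_def, ← Polynomial.eval_map, hq, Polynomial.eval_map]
      exact h1
  obtain ⟨c0, hc0S, hc0⟩ := hsp
  have hc0S' : c0 ∈ S := by rw [hS]; exact Finset.mem_union_right _ hc0S
  obtain ⟨κ, Λ, φ, D', hac, hFF, hSΛ, hκ, hφ, hdat, hSem, hDk'⟩ :=
    exists_rig_data_sem E hE hG D hDE hDk (J := {s // s ∈ S}) (fun s => ((s.1 : _) : Om K))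
      (fun s => s.1.2) ⟨c0, hc0S'⟩ hc0
  have hcz : CharZero κ := charZero_of_injective_algebraMap (algebraMap ℚ κ).injective
  have hczΛ : CharZero Λ := charZero_of_injective_algebraMap (algebraMap κ Λ).injective
  obtain ⟨b, hb⟩ := exists_lift (algebraMap (OE k0 (E : Set K)) (Om K)) (algebraMap Λ (Om K))
    (minpoly (OE k0 (E : Set K)) θ) (fun c hc => ⟨⟨c, hSΛ ⟨c, by
      rw [hS]; exact Finset.mem_union_left _ (Finset.mem_union_right _ hc)⟩⟩, rfl⟩)
  have hQ : ∀ j, ∃ Q : Polynomial Λ, Q.map (algebraMap Λ (Om K)) =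
      (P j).map (algebraMap (OE k0 (E : Set K)) (Om K)) := fun j =>
    exists_lift _ _ (P j) (fun c hc => ⟨⟨c, hSΛ ⟨c, by
      rw [hS]
      exact Finset.mem_union_left _ (Finset.mem_union_left _
        (Finset.mem_biUnion.2 ⟨j, Finset.mem_univ _, hc⟩))⟩⟩, rfl⟩)
  choose Q hQ using hQ
  -- the conjugates are constant
  have hconj : ∀ (σ : IntermediateField.adjoin (OE k0 (E : Set K)) (Set.range z)
      →ₐ[OE k0 (E : Set K)] Om K) (j : Fin (n + 1)), σ (z' j) ∈ κ := by
    intro σ
    obtain ⟨x, hx⟩ : ∃ x : Fin (n + 1) → Om K, ∀ j, x j = σ (z' j) := ⟨_, fun _ => rfl⟩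
    have hwb : Polynomial.aeval (σ θ) b = 0 := by
      rw [Polynomial.aeval_def, ← Polynomial.eval_map, hb, Polynomial.eval_map,
        ← Polynomial.aeval_def, Polynomial.aeval_algHom_apply, minpoly.aeval, map_zero]
    have hb0 : b ≠ 0 := by
      intro h0
      rw [h0, Polynomial.map_zero] at hb
      have h1 := (Polynomial.map_eq_zero_iff
        (algebraMap (OE k0 (E : Set K)) (Om K)).injective).1 hb.symm
      exact minpoly.ne_zero hθi h1
    have hbr : b.natDegree ≤ r := by
      have h1 : (b.map (algebraMap Λ (Om K))).natDegree = b.natDegree :=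
        Polynomial.natDegree_map _
      rw [← h1, hb, Polynomial.natDegree_map]
      exact hθr
    have hwa : IsAlgebraic Λ (σ θ) := ⟨b, hb0, hwb⟩
    have hwi : IsIntegral Λ (σ θ) := hwa.isIntegral
    have hxw : ∀ j, x j ∈ Λ⟮σ θ⟯ := by
      intro j
      have h1 : x j = Polynomial.aeval (σ θ) (Q j) := by
        rw [hx, ← hP j, Polynomial.aeval_def (σ θ) (Q j), ← Polynomial.eval_map, hQ,
          Polynomial.eval_map, ← Polynomial.aeval_def, Polynomial.aeval_algHom_apply]
      rw [h1]
      exact IntermediateField.algebra_adjoin_le_adjoin _ _ (Polynomial.aeval_mem_adjoin_singleton _ _)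
    have hfdw : FiniteDimensional Λ Λ⟮σ θ⟯ := IntermediateField.adjoin.finiteDimensional hwi
    have hle : IntermediateField.adjoin Λ (Set.range x) ≤ Λ⟮σ θ⟯ := by
      rw [IntermediateField.adjoin_le_iff]
      rintro _ ⟨j, rfl⟩
      exact hxw j
    have hfdx : FiniteDimensional Λ (IntermediateField.adjoin Λ (Set.range x)) :=
      FiniteDimensional.of_injective (IntermediateField.inclusion hle).toLinearMap
        (IntermediateField.inclusion hle).injective
    have hrx : Module.finrank Λ (IntermediateField.adjoin Λ (Set.range x)) ≤ r := by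
      have h4 : Module.finrank Λ (IntermediateField.adjoin Λ (Set.range x)) ≤
          Module.finrank Λ Λ⟮σ θ⟯ :=
        LinearMap.finrank_le_finrank_of_injective
          (f := (IntermediateField.inclusion hle).toLinearMap)
          (IntermediateField.inclusion hle).injective
      refine h4.trans ?_
      rw [IntermediateField.adjoin.finrank hwi]
      exact (Polynomial.natDegree_le_natDegree
        (minpoly.degree_le_of_ne_zero _ (σ θ) hb0 hwb)).trans hbr
    have hLF : IsFF κ (IntermediateField.adjoin Λ (Set.range x)) := isFF_of_finite (F := Λ)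
    obtain ⟨x', hx'⟩ : ∃ x' : Fin (n + 1) → IntermediateField.adjoin Λ (Set.range x),
        ∀ j, (x' j : Om K) = x j :=
      ⟨fun j => ⟨x j, IntermediateField.subset_adjoin _ _ ⟨j, rfl⟩⟩, fun _ => rfl⟩
    have hxl : x' l0 = 1 := by
      apply Subtype.ext
      rw [hx', hx]
      have h1 : z' l0 = 1 := Subtype.ext ((hz' l0).trans hl0)
      rw [h1, map_one]
      rfl
    let ψ : k0 →+* E := (algebraMap k0 K).codRestrict E hE
    let χ : E →+* OE k0 (E : Set K) :=
      { toFun := fun x => ⟨cst K x, cst_mem_OE x.2⟩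
        map_one' := Subtype.ext (map_one (cst K))
        map_mul' := fun a b => Subtype.ext (map_mul (cst K) (a : K) b)
        map_zero' := Subtype.ext (map_zero (cst K))
        map_add' := fun a b => Subtype.ext (map_add (cst K) (a : K) b) }
    -- transfer of equations
    have htr : ∀ {R : Type} [Field R] (ρ : R →+* E) (f : MvPolynomial (Fin (n + 1)) R),
        eval₂ (((cst K).comp E.subtype).comp ρ) z f = 0 →
        eval₂ (((algebraMap Λ (IntermediateField.adjoin Λ (Set.range x))).comp φ).comp ρ) x' f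
          = 0 := by
      intro R _ ρ f hf
      have h1 := hom_eval₂ f ((algebraMap (OE k0 (E : Set K))
        (IntermediateField.adjoin (OE k0 (E : Set K)) (Set.range z))).comp (χ.comp ρ))
        (algebraMap (IntermediateField.adjoin (OE k0 (E : Set K)) (Set.range z)) (Om K)) z'
      have h2 : (fun j => algebraMap (IntermediateField.adjoin (OE k0 (E : Set K))
          (Set.range z)) (Om K) (z' j)) = z := funext hz'
      have h3 : (algebraMap (IntermediateField.adjoin (OE k0 (E : Set K)) (Set.range z))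
          (Om K)).comp ((algebraMap (OE k0 (E : Set K))
          (IntermediateField.adjoin (OE k0 (E : Set K)) (Set.range z))).comp (χ.comp ρ)) =
          ((cst K).comp E.subtype).comp ρ := by
        ext s
        rfl
      rw [h2, h3, hf] at h1
      have h4 : eval₂ ((algebraMap (OE k0 (E : Set K))
        (IntermediateField.adjoin (OE k0 (E : Set K)) (Set.range z))).comp (χ.comp ρ)) z' f = 0 :=
        (map_eq_zero _).1 h1
      have h5 := hom_eval₂ f ((algebraMap (OE k0 (E : Set K))
        (IntermediateField.adjoin (OE k0 (E : Set K)) (Set.range z))).comp (χ.comp ρ))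
        (σ : _ →+* Om K) z'
      rw [h4, map_zero] at h5
      have h6 := hom_eval₂ f (((algebraMap Λ
        (IntermediateField.adjoin Λ (Set.range x))).comp φ).comp ρ)
        (algebraMap (IntermediateField.adjoin Λ (Set.range x)) (Om K)) x'
      have h7 : (fun j => algebraMap (IntermediateField.adjoin Λ (Set.range x)) (Om K) (x' j)) =
          fun j => (σ : _ →+* Om K) (z' j) := by
        funext j
        exact (hx' j).trans (hx j)
      have h8 : (algebraMap (IntermediateField.adjoin Λ (Set.range x)) (Om K)).comp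
          (((algebraMap Λ (IntermediateField.adjoin Λ (Set.range x))).comp φ).comp ρ) =
          (σ : _ →+* Om K).comp ((algebraMap (OE k0 (E : Set K))
          (IntermediateField.adjoin (OE k0 (E : Set K)) (Set.range z))).comp (χ.comp ρ)) := by
        ext s
        exact (hφ (ρ s)).trans (σ.commutes (χ (ρ s))).symm
      rw [h7, h8, ← h5] at h6
      exact (map_eq_zero _).1 h6
    have h1 := pht_le (κ := κ) (F := Λ) (L := IntermediateField.adjoin Λ (Set.range x))
      (φ.comp ψ) hdat (fun a I r => hDk' a I r) hSem V hV hd hrx hxl (adjoin_top x x' hx')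
      (fun f hf => by
        have h2 := htr ψ f (hzV f hf)
        exact h2)
      (fun a => by
        have h2 := htr (RingHom.id E) (F a) (by
          have := hzF a
          rw [eval_map] at this
          exact this)
        rw [eval_map, eval₂_map]
        exact h2)
    simp only [mul_zero, finsum_zero] at h1
    intro j
    obtain ⟨c, hc⟩ := const_of_pht h1 hxl j
    rw [← hx, ← hx', hc]
    exact c.2
  -- the coefficients are constant
  apply hκ
  have hsplit : ((minpoly (OE k0 (E : Set K)) (z' j)).map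
      (algebraMap (OE k0 (E : Set K)) (Om K))).Splits := IsAlgClosed.splits _
  have h1 := hsplit.eq_prod_roots
  rw [((minpoly.monic (Algebra.IsIntegral.isIntegral (R := OE k0 (E : Set K)) (z' j))).map
    _).leadingCoeff, Polynomial.C_1, one_mul] at h1
  obtain ⟨i, -, hi⟩ := Polynomial.mem_coeffs_iff.1 hc0S
  have h2 : (c0 : Om K) = ((minpoly (OE k0 (E : Set K)) (z' j)).map
      (algebraMap (OE k0 (E : Set K)) (Om K))).coeff i := by
    rw [Polynomial.coeff_map, ← hi]
    rfl
  change (c0 : Om K) ∈ κ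
  rw [h2, h1]
  refine coeff_mem κ _ (fun w hw => ?_) i
  have h3 := (Polynomial.mem_roots'.1 hw).2
  rw [Polynomial.IsRoot, Polynomial.eval_map] at h3
  have h4 : w ∈ (minpoly (OE k0 (E : Set K)) (z' j)).rootSet (Om K) := by
    rw [Polynomial.mem_rootSet_of_ne
      (minpoly.ne_zero (Algebra.IsIntegral.isIntegral (z' j)))]
    exact h3
  rw [← Algebra.IsAlgebraic.range_eval_eq_rootSet_minpoly (Om K) (z' j)] at h4
  obtain ⟨σ, hσ⟩ := h4
  rw [← hσ]
  exact hconj σ j

end Pool.Agent.Y735.R
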