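import Pool.Agent.Y735.R.LimitR

/-!
Finiteness of the points of bounded degree.
-/

set_option autoImplicit false

open MvPolynomial FF Pool.Agent.W603.LV Pool.Agent.W603.PV Pool.Agent.W602.RG
open Pool.Agent.TH145 Pool.Agent.TH145.GH Pool.Agent.TH145.GC
open Pool.Agent.TH145.MG (DimLE)
open scoped IntermediateField

namespace Pool.Agent.Y735.R

section

variable {k0 K ι : Type} [Field k0] [Field K] [Algebra k0 K] [IsAlgClosed K] [CharZero K]
  {y : ι → K} (E : IntermediateField (IntermediateField.adjoin k0 (Set.range y)) K)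

/-- Finiteness of the points of bounded degree. -/
theorem fin_all_alg {n m r : ℕ} {A : Type} [Fintype A] {dg : A → ℕ} [IsAlgClosed k0] [Finite ι]
    (hy : IsTranscendenceBasis k0 y)
    [FiniteDimensional (IntermediateField.adjoin k0 (Set.range y)) E]
    [IsGalois (IntermediateField.adjoin k0 (Set.range y)) E]
    {F : A → MvPolynomial (Fin (n + 1)) E.toSubfield}
    {DE : A → (Fin (n + 1) →₀ ℕ) → E.toSubfield → E.toSubfield}
    (hG : GC.Gen F dg DE)
    (D : A → (Fin (n + 1) →₀ ℕ) → Derivation ℤ K K)
    (hDE : ∀ a I (x : E.toSubfield), D a I x = (DE a I x : K))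
    (hDk : ∀ a I (r : k0), D a I (algebraMap k0 K r) = 0)
    (hDy : ∀ a I j, ∃ r : k0, D a I (y j) = algebraMap k0 K r)
    (hd : 2 * m + 2 * r ≤ ∑ a, (dg a + 1)) (V : Set (MvPolynomial (Fin (n + 1)) k0))
    (hV : DimLE k0 V m) (l0 : Fin (n + 1)) :
    {x : Fin (n + 1) → K | x l0 = 1 ∧
      (∀ f ∈ V, eval₂ (algebraMap k0 K) x f = 0) ∧
      (∀ a, eval x (map E.toSubfield.subtype (F a)) = 0) ∧
      ∃ LE : IntermediateField E K, FiniteDimensional E LE ∧ Module.finrank E LE ≤ r ∧
        ∀ j, x j ∈ LE}.Finite := by
  by_contra hinf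
  let f := Set.Infinite.natEmbedding _ hinf
  obtain ⟨x, hx⟩ : ∃ x : ℕ → Fin (n + 1) → K, ∀ n, x n = (f n).1 := ⟨_, fun _ => rfl⟩
  have hxinj : Function.Injective x := by
    intro a b hab
    rw [hx, hx] at hab
    exact f.injective (Subtype.ext hab)
  have hxl : ∀ n, x n l0 = 1 := fun n => by rw [hx]; exact (f n).2.1
  have hxV : ∀ n, ∀ f ∈ V, eval₂ (algebraMap k0 K) (x n) f = 0 := fun n => by
    rw [hx]; exact (f n).2.2.1
  have hxF : ∀ n a, eval (x n) (map E.toSubfield.subtype (F a)) = 0 := fun n => by
    rw [hx]; exact (f n).2.2.2.1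
  have hxL : ∀ n, ∃ LE : IntermediateField E K, FiniteDimensional E LE ∧
      Module.finrank E LE ≤ r ∧ ∀ j, x n j ∈ LE := fun n => by
    rw [hx]; exact (f n).2.2.2.2
  choose LE hfd hrk hmem using hxL
  choose B hB using fun i => heights_alg E hy.1 hG D hDE hDk hDy hd V hV l0 i
  have hB' := fun n i => hB i (x n) (hxl n) (hxV n) (hxF n) (LE n) (hfd n) (hrk n) (hmem n)
  -- the degrees, also if there are no variables
  have hdeg : ∀ n (c : Fin (_ + 1) → ℕ), IsIntegral E (∑ j, (c j : K) * x n j) ∧
      (minpoly E (∑ j, (c j : K) * x n j)).natDegree ≤ r := by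
    intro n c
    have h1 : ∑ j, (c j : K) * x n j ∈ LE n :=
      sum_mem fun j _ => mul_mem (natCast_mem _ (c j)) (hmem n j)
    have := hfd n
    obtain ⟨u, hu⟩ : ∃ u : LE n, u = ⟨_, h1⟩ := ⟨_, rfl⟩
    have h2 : IsIntegral E u := Algebra.IsIntegral.isIntegral _
    have h3 : minpoly E (∑ j, (c j : K) * x n j) = minpoly E u := by
      rw [← minpoly.algHom_eq (LE n).val (LE n).val.injective u, hu]
      rfl
    refine ⟨?_, ?_⟩
    · have := h2.map (LE n).val
      rwa [hu] at this
    · rw [h3]
      exact (minpoly.natDegree_le u).trans (hrk n)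
  have hz : ∀ (c : Fin (_ + 1) → ℕ) (i : ℕ), Om.mk (fun n =>
      ((minpoly E (∑ j, (c j : K) * x n j)).coeff i : K)) ∈
        OE k0 ((E.toSubfield : Subfield K) : Set K) := fun c i =>
    lim_mem E hy (fun n => (minpoly E (∑ j, (c j : K) * x n j)).coeff i) B
      fun n i' => (hB' n i' c).2 i
  have hacl := limit_alg (r := r) E.toSubfield (fun r => k0_mem E r) hG D hDE hDk hd V hV
    (fun j => Om.mk fun n => x n j) (l0 := l0) (by
      have h1 : (fun n => x n l0) = fun _ => 1 := funext hxl
      rw [h1]; rfl) (fun f hf => by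
      have h1 := Pool.Agent.TH145.MG.eval_mk x (map (algebraMap k0 K) f)
      have h2 : (fun n => eval (x n) (map (algebraMap k0 K) f)) = fun _ => 0 := by
        funext n
        rw [eval_map]
        exact hxV n f hf
      rw [h2] at h1
      have h3 : eval₂ (cst K) (fun j => Om.mk fun n => x n j) (map (algebraMap k0 K) f) = 0 := h1
      rwa [eval₂_map] at h3) (fun a => by
      have h1 := eval_mk (F a) x
      rw [h1]
      have h2 : (fun n => eval (x n) (map E.toSubfield.subtype (F a))) = fun _ => 0 :=
        funext fun n => hxF n a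
      rw [h2]; rfl) (fun c => by
      classical
      obtain ⟨w, hw⟩ : ∃ w : ℕ → OE k0 ((E.toSubfield : Subfield K) : Set K), ∀ i, (w i : Om K) =
        Om.mk (fun n => ((minpoly E (∑ j, (c j : K) * x n j)).coeff i : K)) :=
        ⟨fun i => ⟨_, hz c i⟩, fun _ => rfl⟩
      refine ⟨∑ i ∈ Finset.range (r + 1), Polynomial.monomial i (w i), ?_, ?_, ?_⟩
      · intro h0
        have h1 : ∀ i ∈ Finset.range (r + 1), ∀ᶠ n in (Filter.hyperfilter ℕ : Filter ℕ),
            ((minpoly E (∑ j, (c j : K) * x n j)).coeff i : K) = 0 := by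
          intro i hi
          have h2 := congrArg (fun p => Polynomial.coeff p i) h0
          simp only [Polynomial.finsetSum_coeff, Polynomial.coeff_monomial, Finset.sum_ite_eq',
            Polynomial.coeff_zero] at h2
          rw [if_pos hi] at h2
          have h3 := hw i
          rw [h2] at h3
          have h4 : Om.mk (fun n => ((minpoly E (∑ j, (c j : K) * x n j)).coeff i : K)) =
              Om.mk fun _ => 0 := h3.symm
          exact Om.mk_eq.1 h4
        have h2 : ∀ᶠ n in (Filter.hyperfilter ℕ : Filter ℕ), ∀ i ∈ Finset.range (r + 1),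
            ((minpoly E (∑ j, (c j : K) * x n j)).coeff i : K) = 0 :=
          (Filter.eventually_all_finset _).2 h1
        obtain ⟨n, hn⟩ := h2.exists
        have h3 := hn _ (Finset.mem_range.2 (Nat.lt_succ_of_le (hdeg n c).2))
        have h4 := (minpoly.monic (hdeg n c).1).coeff_natDegree
        rw [h4] at h3
        exact one_ne_zero h3
      · refine Polynomial.natDegree_sum_le_of_forall_le _ _ fun i hi => ?_
        exact (Polynomial.natDegree_monomial_le _).trans
          (Nat.le_of_lt_succ (Finset.mem_range.1 hi))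
      · rw [map_sum]
        have h1 : ∀ i, Polynomial.aeval (∑ j, (c j : Om K) * Om.mk fun n => x n j)
            (Polynomial.monomial i (w i)) = MF.mkHom K (fun n =>
              ((minpoly E (∑ j, (c j : K) * x n j)).coeff i : K) *
                (∑ j, (c j : K) * x n j) ^ i) := by
          intro i
          rw [Polynomial.aeval_monomial]
          have h2 : algebraMap (OE k0 ((E.toSubfield : Subfield K) : Set K)) (Om K) (w i) =
              MF.mkHom K (fun n => ((minpoly E (∑ j, (c j : K) * x n j)).coeff i : K)) := hw i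
          have h3 : (∑ j, (c j : Om K) * Om.mk fun n => x n j) =
              MF.mkHom K (fun n => ∑ j, (c j : K) * x n j) := by
            have h4 : (fun n => ∑ j, (c j : K) * x n j) =
                ∑ j, (c j : ℕ → K) * fun n => x n j := by
              funext n
              rw [Finset.sum_apply]
              rfl
            rw [h4, map_sum]
            exact Finset.sum_congr rfl fun j _ => by rw [map_mul, map_natCast]; rfl
          rw [h2, h3, ← map_pow, ← map_mul]
          rfl
        rw [Finset.sum_congr rfl fun i _ => h1 i, ← map_sum]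
        have h2 : (∑ i ∈ Finset.range (r + 1), fun n =>
              ((minpoly E (∑ j, (c j : K) * x n j)).coeff i : K) *
                (∑ j, (c j : K) * x n j) ^ i) = 0 := by
          funext n
          rw [Finset.sum_apply, Pi.zero_apply]
          have h3 := minpoly.aeval E (∑ j, (c j : K) * x n j)
          rw [Polynomial.aeval_eq_sum_range' (Nat.lt_succ_of_le (hdeg n c).2)] at h3
          rw [← h3]
          exact Finset.sum_congr rfl fun i _ => by rw [Algebra.smul_def]; rfl
        rw [h2, map_zero])
  choose a ha using fun j => eventually_const (hacl j)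
  exact not_all_const hxinj a ha

end

end Pool.Agent.Y735.R
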