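import Pool.Agent.Y735.R.Disc

/-!
The poles of the traces.
-/

set_option autoImplicit false

open FF Pool.Agent.W603.LV Pool.Agent.W603.PV

namespace Pool.Agent.Y735.R

universe u v w

/-- The trace is the sum over the embeddings. -/
theorem trace_eq {F : Type v} [Field F] [CharZero F] {L : Type w} [Field L] [Algebra F L]
    [FiniteDimensional F L] {M : Type w} [Field M] [Algebra F M]
    (hcard : Fintype.card (L →ₐ[F] M) = Module.finrank F L) (x : L) :
    algebraMap F M (Algebra.trace F L x) = ∑ e : L →ₐ[F] M, e x := by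
  classical
  let Ω := AlgebraicClosure M
  apply (algebraMap M Ω).injective
  rw [← IsScalarTower.algebraMap_apply, trace_eq_sum_embeddings Ω, map_sum]
  obtain ⟨g, hg⟩ : ∃ g : (L →ₐ[F] M) → (L →ₐ[F] Ω), ∀ e y, g e y = algebraMap M Ω (e y) :=
    ⟨fun e => (IsScalarTower.toAlgHom F M Ω).comp e, fun _ _ => rfl⟩
  have hinj : Function.Injective g := by
    intro e e' h
    ext y
    apply (algebraMap M Ω).injective
    rw [← hg, ← hg, h]
  have hbij : Function.Bijective g := by
    rw [Fintype.bijective_iff_injective_and_card]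
    exact ⟨hinj, by rw [hcard, AlgHom.card]⟩
  exact (Fintype.sum_bijective g hbij _ _ fun e => (hg e x).symm).symm

variable {k : Type u} [Field k] [IsAlgClosed k] [CharZero k]
  {F : Type v} [Field F] [Algebra k F] [IsFF k F] {L : Type w} [Field L] [Algebra k L]
  [Algebra F L] [IsScalarTower k F L] [IsFF k L] [FiniteDimensional F L]

/-- The poles of the trace. -/
theorem trace_ge {y : L} {b : Place k F → ℤ}
    (hy : ∀ P : Place k L, Ge P (-(((ram F P : ℤ) - 1) + ram F P * b (under F P))) y)
    (v : Place k F) : Ge v (-b v) (Algebra.trace F L y) := by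
  classical
  have hF : CharZero F := charZero_of_injective_algebraMap (algebraMap k F).injective
  obtain ⟨M, _, _, hfin, hgal, -, hcard⟩ := TH951.MN.exists_gal F L
  let _ : Algebra k M := ((algebraMap F M).comp (algebraMap k F)).toAlgebra
  have hst : IsScalarTower k F M := IsScalarTower.of_algebraMap_eq fun _ => rfl
  have hM : IsFF k M := isFF_of_finite (F := F)
  choose pl nn hnn hord hund hram hsum using fun e : L →ₐ[F] M => emb_data (k := k) e
  obtain ⟨W, hW⟩ := TH951.MN.exists_over_place (k := k) (L := M) v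
  have hW0 := (ram_spec (F := F) W).1
  have h1 : ∀ e : L →ₐ[F] M, Ge W (-(((ram F W : ℤ) - 1) + ram F W * b v)) (e y) := by
    intro e
    rcases hy (pl e W) with h | h
    · left; rw [h, map_zero]
    · right
      rw [hord, hram e W, Nat.cast_mul]
      rw [hund, hW] at h
      have h2 : (1 : ℤ) ≤ nn e W := by exact_mod_cast hnn e W
      have h3 : (nn e W : ℤ) * -(((ram F (pl e W) : ℤ) - 1) + ram F (pl e W) * b v) ≤
          nn e W * (pl e W).ord y := mul_le_mul_of_nonneg_left h (by omega)
      refine le_trans ?_ h3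
      nlinarith
  have h2 : Ge W (-(((ram F W : ℤ) - 1) + ram F W * b v))
      (algebraMap F M (Algebra.trace F L y)) := by
    rw [trace_eq hcard]
    exact Ge.sum _ _ fun e _ => h1 e
  rcases h2 with h2 | h2
  · left
    exact (map_eq_zero _).1 h2
  · right
    rw [ord_under, hW] at h2
    by_contra hcon
    push Not at hcon
    have h3 : (1 : ℤ) ≤ ram F W := by exact_mod_cast hW0
    have h4 : (ram F W : ℤ) * v.ord (Algebra.trace F L y) ≤ ram F W * (-b v - 1) :=
      mul_le_mul_of_nonneg_left (by omega) (by omega)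
    nlinarith

omit [IsAlgClosed k] in
/-- The height of an element with bounded poles. -/
theorem hgt_le_of_ge {f : F} {b : Place k F → ℤ} (hb0 : ∀ v, 0 ≤ b v)
    (hbf : {v | b v ≠ 0}.Finite) (h : ∀ v, Ge v (-b v) f) : hgt k f ≤ ∑ᶠ v, b v := by
  classical
  obtain ⟨T0, hT0⟩ := exists_supp (k := k) (Finset.univ : Finset Unit) (fun _ => f)
  obtain ⟨T, hT⟩ : ∃ T, T = T0 ∪ hbf.toFinset := ⟨_, rfl⟩
  rw [hgt_finset f T fun P hP => by
    rw [hT]; exact Finset.mem_union_left _ (hT0 () (Finset.mem_univ _) P hP),
    finsum_eq_sum_of_support_subset (s := T) _ (fun P hP => by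
      rw [hT]; exact Finset.mem_union_right _ (hbf.mem_toFinset.2 hP))]
  refine Finset.sum_le_sum fun P _ => max_le ?_ (hb0 P)
  rcases h P with h | h
  · rw [h, P.ord_zero]
    have := hb0 P
    omega
  · omega

end Pool.Agent.Y735.R
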