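import Pool.Agent.Y735.R.FinR
import Pool.Agent.TH145.GC.Main

/-!
Points of bounded degree over finitely generated fields.
-/

set_option autoImplicit false

open MvPolynomial Pool.Agent.TH145.GH LinearAlgebra.Projectivization
open Pool.Agent.TH145
open Pool.Agent.TH145.MG (DimLE)
open scoped IntermediateField

namespace Pool.Agent.Y735.R

theorem finrank_comap {k1 Ω Ω' : Type} [Field k1] [Field Ω] [Field Ω'] [Algebra k1 Ω]
    [Algebra k1 Ω'] (i : Ω →ₐ[k1] Ω') (L : IntermediateField k1 Ω') [FiniteDimensional k1 L] :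
    FiniteDimensional k1 (L.comap i) ∧ Module.finrank k1 (L.comap i) ≤ Module.finrank k1 L := by
  obtain ⟨g, hg⟩ : ∃ g : L.comap i →ₗ[k1] L, ∀ x, (g x : Ω') = i x :=
    ⟨{ toFun := fun x => ⟨i x, x.2⟩
       map_add' := fun a b => Subtype.ext (map_add i (a : Ω) b)
       map_smul' := fun c a => Subtype.ext (map_smul i c (a : Ω)) }, fun _ => rfl⟩
  have hinj : Function.Injective g := by
    intro a b hab
    have h1 := congrArg (fun z : L => (z : Ω')) hab
    simp only [hg] at h1
    exact Subtype.ext (i.injective h1)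
  exact ⟨FiniteDimensional.of_injective g hinj, LinearMap.finrank_le_finrank_of_injective hinj⟩

/-- Finiteness of the points of bounded degree over a field generated by a finite set over `k0`. -/
theorem fin_points_alg {k0 K : Type} [Field k0] [Field K] [Algebra k0 K] [IsAlgClosed K]
    [CharZero K] [IsAlgClosed k0] {n m r : ℕ} {A : Type} [Fintype A] {dg : A → ℕ}
    (hd : 2 * m + 2 * r ≤ ∑ a, (dg a + 1)) (V : Set (MvPolynomial (Fin (n + 1)) k0))
    (hV : DimLE k0 V m)
    {F : A → MvPolynomial (Fin (n + 1)) K} (hF : ∀ a, (F a).IsHomogeneous (dg a))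
    (hind : AlgebraicIndependent k0 fun p : GC.Cf n dg => (F p.1).coeff p.2.1)
    (T : Finset K) (l0 : Fin (n + 1)) :
    {x : Fin (n + 1) → K | x l0 = 1 ∧ (∀ f ∈ V, aeval x f = 0) ∧ (∀ a, eval x (F a) = 0) ∧
      ∃ L : IntermediateField (IntermediateField.adjoin k0 (T : Set K)) K,
        FiniteDimensional (IntermediateField.adjoin k0 (T : Set K)) L ∧
        Module.finrank (IntermediateField.adjoin k0 (T : Set K)) L ≤ r ∧
        ∀ j, x j ∈ L}.Finite := by
  classical
  obtain ⟨B, hB, K1, y, E, F1, DE, D, hK1, hc, hy, h1, h2, h3, h4, h5, h6, h7, h8⟩ :=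
    GC.exists_all hF hind T
  have : Finite B := hB
  have h9 := fin_all_alg (r := r) E hy h3 D h4 h5 h6 hd V hV l0
  have hinj : Function.Injective (algebraMap K1 K) := (algebraMap K1 K).injective
  -- the field of the points
  have h10 : ∀ t : IntermediateField.adjoin k0 (T : Set K), ∃ e : E, ((e : K1) : K) = t :=
    fun t => by
      obtain ⟨e, he, het⟩ := h8 t t.2
      exact ⟨⟨e, he⟩, het⟩
  choose ε hε using h10
  let ε' : IntermediateField.adjoin k0 (T : Set K) →+* E :=
    { toFun := ε
      map_one' := Subtype.ext (hinj ((hε 1).trans (map_one (algebraMap K1 K)).symm))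
      map_zero' := Subtype.ext (hinj ((hε 0).trans (map_zero (algebraMap K1 K)).symm))
      map_mul' := fun a b => Subtype.ext (hinj ((hε (a * b)).trans (by
        have e1 : algebraMap K1 K ((ε a : K1) * (ε b : K1)) = (a : K) * b := by
          rw [map_mul]
          exact congrArg₂ (· * ·) (hε a) (hε b)
        exact e1.symm)))
      map_add' := fun a b => Subtype.ext (hinj ((hε (a + b)).trans (by
        have e1 : algebraMap K1 K ((ε a : K1) + (ε b : K1)) = (a : K) + b := by
          rw [map_add]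
          exact congrArg₂ (· + ·) (hε a) (hε b)
        exact e1.symm))) }
  have hε' : ∀ t, ((ε' t : K1) : K) = t := hε
  let _ : Algebra (IntermediateField.adjoin k0 (T : Set K)) E := ε'.toAlgebra
  let _ : Algebra (IntermediateField.adjoin k0 (T : Set K)) K1 :=
    ((algebraMap E K1).comp ε').toAlgebra
  have hst : IsScalarTower (IntermediateField.adjoin k0 (T : Set K)) E K1 :=
    IsScalarTower.of_algebraMap_eq fun _ => rfl
  have hst' : IsScalarTower (IntermediateField.adjoin k0 (T : Set K)) K1 K :=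
    IsScalarTower.of_algebraMap_eq fun t => (hε' t).symm
  have hczT : CharZero (IntermediateField.adjoin k0 (T : Set K)) :=
    charZero_of_injective_algebraMap
      (algebraMap ℚ (IntermediateField.adjoin k0 (T : Set K))).injective
  refine (h9.image fun x j => (x j : K)).subset ?_
  rintro x ⟨hxl, hxV, hxF, L, hLfd, hLr, hxL⟩
  have hxK : ∀ j, ∃ e : K1, (e : K) = x j := by
    intro j
    have hK1' : IsAlgClosed K1.toSubfield := hK1
    have h11 : x j ∈ acl (K1.toSubfield : Set K) := by
      refine mem_acl_of_alg (F := (IntermediateField.adjoin k0 (T : Set K)).toSubfield) ?_ ?_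
      · intro t ht
        refine subset_acl _ ?_
        rw [← show ((ε' ⟨t, ht⟩ : K1) : K) = t from hε' ⟨t, ht⟩]
        exact (ε' ⟨t, ht⟩ : K1).2
      · have h12 : IsAlgebraic (IntermediateField.adjoin k0 (T : Set K)) (⟨x j, hxL j⟩ : L) :=
          Algebra.IsAlgebraic.isAlgebraic _
        exact h12.algebraMap (A := K)
    have h12 := acl_of_isAlgClosed hK1' (S := (K1.toSubfield : Set K)) subset_rfl h11
    exact ⟨⟨x j, h12⟩, rfl⟩
  choose e hex using hxK
  have hex' : (fun j => algebraMap K1 K (e j)) = x := funext hex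
  have hev : ∀ a, algebraMap K1 K (eval e (map E.toSubfield.subtype (F1 a))) =
      eval x (F a) := by
    intro a
    rw [← h7, eval_map, eval_map]
    have h10 := hom_eval₂ (F1 a) E.toSubfield.subtype (algebraMap K1 K) e
    rw [h10, hex']
  refine ⟨e, ⟨?_, fun f hf => ?_, fun a => ?_, ?_⟩, funext hex⟩
  · apply Subtype.ext
    rw [hex, hxl]
    rfl
  · apply (algebraMap K1 K).injective
    have h10 := hom_eval₂ f (algebraMap k0 K1) (algebraMap K1 K) e
    rw [h10, map_zero, hex']
    exact hxV f hf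
  · apply (algebraMap K1 K).injective
    rw [hev, hxF a, map_zero]
  · obtain ⟨i, hi⟩ : ∃ i : K1 →ₐ[IntermediateField.adjoin k0 (T : Set K)] K,
      ∀ z, i z = (z : K) := ⟨IsScalarTower.toAlgHom _ K1 K, fun _ => rfl⟩
    obtain ⟨h11, h12⟩ := finrank_comap i L
    obtain ⟨h13, h14⟩ := finrank_adjoin_le (F := E) (Set.range e) (L.comap i) (by
      rintro _ ⟨j, rfl⟩
      change i (e j) ∈ L
      rw [hi, hex]
      exact hxL j)
    exact ⟨_, h13, h14.trans (h12.trans hLr), fun j =>
      IntermediateField.subset_adjoin _ _ ⟨j, rfl⟩⟩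

/-- Finiteness of the points of bounded degree, if the ratios of the coefficients are
independent. -/
theorem fin_points_alg' {k0 K : Type} [Field k0] [Field K] [Algebra k0 K] [IsAlgClosed K]
    [CharZero K] [IsAlgClosed k0] {n m r : ℕ} {A : Type} [Fintype A] {dg : A → ℕ}
    (hd : 2 * m + 2 * r ≤ ∑ a, (dg a + 1)) (V : Set (MvPolynomial (Fin (n + 1)) k0))
    (hV : DimLE k0 V m)
    (F : A → MvPolynomial (Fin (n + 1)) K) (hF : ∀ a, (F a).IsHomogeneous (dg a))
    (I0 : A → Fin (n + 1) →₀ ℕ) (h0 : ∀ a, (F a).coeff (I0 a) ≠ 0)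
    (hind : AlgebraicIndependent k0 fun p : GC.Rt dg I0 =>
      (F p.1).coeff p.2.1 / (F p.1).coeff (I0 p.1))
    (T : Finset K) (l0 : Fin (n + 1)) :
    {x : Fin (n + 1) → K | x l0 = 1 ∧ (∀ f ∈ V, aeval x f = 0) ∧ (∀ a, eval x (F a) = 0) ∧
      ∃ L : IntermediateField (IntermediateField.adjoin k0 (T : Set K)) K,
        FiniteDimensional (IntermediateField.adjoin k0 (T : Set K)) L ∧
        Module.finrank (IntermediateField.adjoin k0 (T : Set K)) L ≤ r ∧
        ∀ j, x j ∈ L}.Finite := by
  classical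
  obtain ⟨K', _, _, hK', hc, t, ht⟩ := GC.exists_big K A
  let _ : Algebra k0 K' := ((algebraMap K K').comp (algebraMap k0 K)).toAlgebra
  have hst : IsScalarTower k0 K K' := IsScalarTower.of_algebraMap_eq fun _ => rfl
  have hI0 : ∀ a, (I0 a).degree = dg a := fun a =>
    deg_of_mem (hF a) (mem_support_iff.2 (h0 a))
  have h1 := GC.indep_scale (k0 := k0) (K' := K') F I0 hI0 h0 hind ht
  obtain ⟨G, hG⟩ : ∃ G : A → MvPolynomial (Fin (n + 1)) K', ∀ a, G a =
    MvPolynomial.C (t a / algebraMap K K' ((F a).coeff (I0 a))) * map (algebraMap K K') (F a) :=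
    ⟨_, fun _ => rfl⟩
  have h2 : ∀ a, (G a).IsHomogeneous (dg a) := fun a => by
    have := (isHomogeneous_C (Fin (n + 1)) (t a / algebraMap K K' ((F a).coeff (I0 a)))).mul
      ((hF a).map (algebraMap K K'))
    rwa [zero_add, ← hG] at this
  have h4 : (fun p : GC.Cf n dg => (G p.1).coeff p.2.1) =
      fun p => t p.1 / algebraMap K K' ((F p.1).coeff (I0 p.1)) *
        algebraMap K K' ((F p.1).coeff p.2.1) := by
    funext p
    rw [hG, coeff_C_mul, coeff_map]
  have h5 : AlgebraicIndependent k0 (fun p : GC.Cf n dg => (G p.1).coeff p.2.1) := by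
    rw [h4]
    exact h1
  obtain ⟨T', hT'⟩ : ∃ T' : Finset K', T' = T.image (algebraMap K K') := ⟨_, rfl⟩
  have h3 := fin_points_alg (k0 := k0) (r := r) hd V hV h2 h5 T' l0
  have hev : ∀ (a : A) (x : Fin (n + 1) → K), eval (fun j => algebraMap K K' (x j)) (G a) =
      t a / algebraMap K K' ((F a).coeff (I0 a)) * algebraMap K K' (eval x (F a)) := by
    intro a x
    rw [hG, map_mul, eval_map, eval_C]
    have h5 := eval₂_comp_left (algebraMap K K') (RingHom.id K) x (F a)
    rw [RingHom.comp_id] at h5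
    congr 1
    exact h5.symm
  have h6 : (IntermediateField.adjoin k0 (T : Set K)).map (IsScalarTower.toAlgHom k0 K K') =
      IntermediateField.adjoin k0 (T' : Set K') := by
    rw [IntermediateField.adjoin_map, hT', Finset.coe_image]
    rfl
  have h7 : ∀ s ∈ IntermediateField.adjoin k0 (T : Set K), algebraMap K K' s ∈
      IntermediateField.adjoin k0 (T' : Set K') := by
    intro s hs
    rw [← h6]
    exact ⟨s, hs, rfl⟩
  let _ : Algebra (IntermediateField.adjoin k0 (T : Set K))
      (IntermediateField.adjoin k0 (T' : Set K')) := RingHom.toAlgebra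
    { toFun := fun s => ⟨algebraMap K K' s, h7 s s.2⟩
      map_one' := Subtype.ext (map_one (algebraMap K K'))
      map_mul' := fun a b => Subtype.ext (map_mul (algebraMap K K') (a : K) b)
      map_zero' := Subtype.ext (map_zero (algebraMap K K'))
      map_add' := fun a b => Subtype.ext (map_add (algebraMap K K') (a : K) b) }
  have hst2 : IsScalarTower (IntermediateField.adjoin k0 (T : Set K))
      (IntermediateField.adjoin k0 (T' : Set K')) K' :=
    IsScalarTower.of_algebraMap_eq fun _ => rfl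
  have hst3 : IsScalarTower (IntermediateField.adjoin k0 (T : Set K)) K K' :=
    IsScalarTower.of_algebraMap_eq fun _ => rfl
  have hczT : CharZero (IntermediateField.adjoin k0 (T : Set K)) :=
    charZero_of_injective_algebraMap
      (algebraMap ℚ (IntermediateField.adjoin k0 (T : Set K))).injective
  refine Set.Finite.of_finite_image (f := fun x j => algebraMap K K' (x j)) (h3.subset ?_) ?_
  · rintro _ ⟨x, ⟨hxl, hxV, hxF, L, hLfd, hLr, hxL⟩, rfl⟩
    refine ⟨?_, fun f hf => ?_, fun a => ?_, ?_⟩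
    · dsimp only
      rw [hxl, map_one]
    · have h6 := congrArg (algebraMap K K') (hxV f hf)
      rw [map_zero] at h6
      rw [← h6]
      exact (hom_eval₂ f (algebraMap k0 K) (algebraMap K K') x).symm
    · rw [hev, hxF a, map_zero, mul_zero]
    · obtain ⟨i, hi⟩ : ∃ i : K →ₐ[IntermediateField.adjoin k0 (T : Set K)] K',
        ∀ z, i z = algebraMap K K' z := ⟨IsScalarTower.toAlgHom _ K K', fun _ => rfl⟩
      have h8 : FiniteDimensional (IntermediateField.adjoin k0 (T : Set K)) (L.map i) :=
        LinearEquiv.finiteDimensional (L.equivMap i).toLinearEquiv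
      have h9 : Module.finrank (IntermediateField.adjoin k0 (T : Set K)) (L.map i) ≤ r := by
        rw [← (L.equivMap i).toLinearEquiv.finrank_eq]
        exact hLr
      obtain ⟨h13, h14⟩ := finrank_adjoin_le (F := IntermediateField.adjoin k0 (T' : Set K'))
        (Set.range fun j => algebraMap K K' (x j)) (L.map i) (by
        rintro _ ⟨j, rfl⟩
        exact ⟨x j, hxL j, hi _⟩)
      exact ⟨_, h13, h14.trans h9, fun j => IntermediateField.subset_adjoin _ _ ⟨j, rfl⟩⟩
  · intro x _ x' _ hxx
    funext j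
    exact (algebraMap K K').injective (congrFun hxx j)

variable {k K : Type} [Field k] [Field K] [IsAlgClosed K] [CharZero K] [Algebra k K] {n m r : ℕ}
  {A : Type} [Fintype A] {d : A → ℕ}

/-- The points of bounded degree in projective space. -/
theorem fin_proj_alg (hd : 2 * m + 2 * r ≤ ∑ a, (d a + 1))
    (V : Set (MvPolynomial (Fin (n + 1)) (algebraicClosure k K)))
    (hVh : ∀ f ∈ V, ∃ e, f.IsHomogeneous e) (hV : DimLE (algebraicClosure k K) V m)
    (F : A → MvPolynomial (Fin (n + 1)) K) (hF : ∀ a, (F a).IsHomogeneous (d a))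
    (I0 : A → Fin (n + 1) →₀ ℕ) (h0 : ∀ a, (F a).coeff (I0 a) ≠ 0)
    (hind : AlgebraicIndependent k fun p : GC.Rt d I0 =>
      (F p.1).coeff p.2.1 / (F p.1).coeff (I0 p.1)) (T : Finset K) :
    {p : ℙ K (Fin (n + 1) → K) | ∃ x : Fin (n + 1) → K, (∀ f ∈ V, aeval x f = 0) ∧
      (∀ a, eval x (F a) = 0) ∧
      (∃ L : IntermediateField (IntermediateField.adjoin (algebraicClosure k K) (T : Set K)) K,
        FiniteDimensional (IntermediateField.adjoin (algebraicClosure k K) (T : Set K)) L ∧
        Module.finrank (IntermediateField.adjoin (algebraicClosure k K) (T : Set K)) L ≤ r ∧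
        ∀ j, x j ∈ L) ∧
      ∃ hx : x ≠ 0, p = Projectivization.mk K x hx}.Finite := by
  have hac : IsAlgClosed (algebraicClosure k K) := (algebraicClosure.isAlgClosure k K).isAlgClosed
  have h1 : ∀ l0 : Fin (n + 1), {x : Fin (n + 1) → K | x l0 = 1 ∧ (∀ f ∈ V, aeval x f = 0) ∧
      (∀ a, eval x (F a) = 0) ∧
      ∃ L : IntermediateField (IntermediateField.adjoin (algebraicClosure k K) (T : Set K)) K,
        FiniteDimensional (IntermediateField.adjoin (algebraicClosure k K) (T : Set K)) L ∧
        Module.finrank (IntermediateField.adjoin (algebraicClosure k K) (T : Set K)) L ≤ r ∧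
        ∀ j, x j ∈ L}.Finite := fun l0 =>
    fin_points_alg' hd V hV F hF I0 h0 hind.algebraicClosure T l0
  obtain ⟨g, hg⟩ : ∃ g : (Fin (n + 1) → K) → ℙ K (Fin (n + 1) → K), ∀ x (hx : x ≠ 0),
      g x = Projectivization.mk K x hx := by
    classical
    refine ⟨fun x => if hx : x ≠ 0 then Projectivization.mk K x hx else
      Projectivization.mk K (fun _ => 1) (fun h => one_ne_zero (congrFun h 0)), fun x hx => ?_⟩
    exact dif_pos hx
  refine (Set.finite_iUnion fun l0 => (h1 l0).image g).subset ?_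
  rintro p ⟨x, hxV, hxF, ⟨L, hLfd, hLr, hxL⟩, hx, rfl⟩
  obtain ⟨l0, hl0⟩ := Function.ne_iff.1 hx
  have hl0' : x l0 ≠ 0 := hl0
  obtain ⟨x', hx'⟩ : ∃ x' : Fin (n + 1) → K, x' = (x l0)⁻¹ • x := ⟨_, rfl⟩
  have hx'1 : x' l0 = 1 := by
    rw [hx', Pi.smul_apply, smul_eq_mul, inv_mul_cancel₀ hl0']
  have hx'0 : x' ≠ 0 := by
    intro h
    rw [h] at hx'1
    exact zero_ne_one hx'1
  refine Set.mem_iUnion.2 ⟨l0, x', ⟨hx'1, fun f hf => ?_, fun a => ?_, L, hLfd, hLr, fun j => ?_⟩,
    ?_⟩
  · obtain ⟨e, he⟩ := hVh f hf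
    rw [hx', Pool.Agent.TH145.MG.aeval_smul he, hxV f hf, mul_zero]
  · rw [hx', eval_smul_hom (hF a), hxF a, mul_zero]
  · rw [hx', Pi.smul_apply, smul_eq_mul]
    exact mul_mem (inv_mem (hxL l0)) (hxL j)
  · rw [hg x' hx'0, Projectivization.mk_eq_mk_iff']
    exact ⟨(x l0)⁻¹, hx'.symm⟩

end Pool.Agent.Y735.R
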