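import Pool.Agent.Y735.R.Gen

/-!
Heights of the coefficients of a polynomial in terms of the heights of its roots, and heights in
different finite extensions.
-/

set_option autoImplicit false

open FF Pool.Agent.W603.LV Pool.Agent.W603.PV
open scoped IntermediateField

namespace Pool.Agent.Y735.R

universe u v w

section coef

variable {k : Type u} [Field k] [IsAlgClosed k] [CharZero k] {M : Type w} [Field M] [Algebra k M]
  [IsFF k M]

omit [IsAlgClosed k] [CharZero k] [IsFF k M] in
theorem ge_coeff (P : Place k M) (s : Multiset M) (j : ℕ) :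
    Ge P (-(s.map fun w => max (-P.ord w) 0).sum)
      ((s.map fun w => Polynomial.X - Polynomial.C w).prod.coeff j) := by
  induction s using Multiset.induction_on generalizing j with
  | empty =>
    simp only [Multiset.map_zero, Multiset.prod_zero, Multiset.sum_zero, neg_zero,
      Polynomial.coeff_one]
    split_ifs
    · exact Ge.one
    · exact Ge.zero
  | cons a s ih =>
    simp only [Multiset.map_cons, Multiset.prod_cons, Multiset.sum_cons, sub_mul,
      Polynomial.coeff_sub, Polynomial.coeff_C_mul]
    have h1 := le_max_right (-P.ord a) 0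
    have h2 := le_max_left (-P.ord a) 0
    refine Ge.sub ?_ ?_
    · rcases j with _ | j
      · rw [Polynomial.coeff_X_mul_zero]
        exact Ge.zero
      · rw [Polynomial.coeff_X_mul]
        exact (ih j).mono (by omega)
    · have h3 : Ge P (P.ord a) a := Or.inr le_rfl
      exact (h3.mul (ih j)).mono (by omega)

omit [IsAlgClosed k] in
theorem hgt_coeff_prod (s : Multiset M) (j : ℕ) :
    hgt k ((s.map fun w => Polynomial.X - Polynomial.C w).prod.coeff j) ≤
      (s.map fun w => hgt k w).sum := by
  classical
  obtain ⟨c, hc⟩ : ∃ c, c = (s.map fun w => Polynomial.X - Polynomial.C w).prod.coeff j :=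
    ⟨_, rfl⟩
  rw [← hc]
  obtain ⟨T0, hT0⟩ := exists_supp (k := k) s.toFinset (fun w => w)
  obtain ⟨T1, hT1⟩ := exists_supp (k := k) (Finset.univ : Finset Unit) (fun _ => c)
  obtain ⟨T, hT⟩ : ∃ T, T = T0 ∪ T1 := ⟨_, rfl⟩
  have h1 : (s.map fun w => hgt k w).sum = ∑ P ∈ T, (s.map fun w => max (-P.ord w) 0).sum := by
    have h2 : (s.map fun w => hgt k w) = s.map fun w => ∑ P ∈ T, max (-P.ord w) 0 := by
      refine Multiset.map_congr rfl fun w hw => ?_
      exact hgt_finset w T fun P hP => by
        rw [hT]
        exact Finset.mem_union_left _ (hT0 w (Multiset.mem_toFinset.2 hw) P hP)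
    rw [h2]
    clear h2 hc hT0
    induction s using Multiset.induction_on with
    | empty => simp
    | cons a s ih =>
      simp only [Multiset.map_cons, Multiset.sum_cons]
      rw [ih, Finset.sum_add_distrib]
  rw [h1, hgt_finset c T fun P hP => by
    rw [hT]
    exact Finset.mem_union_right _ (hT1 () (Finset.mem_univ _) P hP)]
  refine Finset.sum_le_sum fun P _ => ?_
  have h2 : 0 ≤ (s.map fun w => max (-P.ord w) 0).sum := by
    refine Multiset.sum_nonneg fun w hw => ?_
    obtain ⟨b, -, rfl⟩ := Multiset.mem_map.1 hw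
    exact le_max_right _ _
  have h3 := ge_coeff P s j
  rw [← hc] at h3
  refine max_le ?_ h2
  rcases h3 with h3 | h3
  · rw [h3, P.ord_zero]; omega
  · omega

variable {F : Type v} [Field F] [Algebra k F] [IsFF k F] [Algebra F M] [IsScalarTower k F M]
  [FiniteDimensional F M]

/-- The heights of the coefficients of a monic polynomial. -/
theorem hgt_coeff_le (p : Polynomial F) (hp : p.Monic)
    (hs : (p.map (algebraMap F M)).Splits) (b : ℤ)
    (hb : ∀ w : M, Polynomial.aeval w p = 0 → hgt k w ≤ Module.finrank F M * b) (j : ℕ) :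
    hgt k (p.coeff j) ≤ p.natDegree * b := by
  have h1 := hs.eq_prod_roots
  rw [(hp.map _).leadingCoeff, Polynomial.C_1, one_mul] at h1
  have h2 := hgt_coeff_prod (k := k) (p.map (algebraMap F M)).roots j
  rw [← h1, Polynomial.coeff_map, hgt_algebraMap] at h2
  have hcard : Multiset.card (p.map (algebraMap F M)).roots = p.natDegree := by
    rw [← hs.natDegree_eq_card_roots, Polynomial.natDegree_map]
  have h3 : ((p.map (algebraMap F M)).roots.map fun w => hgt k w).sum ≤
      p.natDegree * (Module.finrank F M * b) := by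
    rw [← hcard]
    have h4 : ((p.map (algebraMap F M)).roots.map fun w => hgt k w).sum ≤
        ((p.map (algebraMap F M)).roots.map fun _ => (Module.finrank F M : ℤ) * b).sum := by
      refine Multiset.sum_map_le_sum_map _ _ fun w hw => hb w ?_
      have h5 := (Polynomial.mem_roots'.1 hw).2
      rw [Polynomial.IsRoot, Polynomial.eval_map] at h5
      exact h5
    refine h4.trans (le_of_eq ?_)
    rw [Multiset.map_const', Multiset.sum_replicate, nsmul_eq_mul]
  have h0 : (0 : ℤ) < Module.finrank F M := by
    exact_mod_cast (Module.finrank_pos : 0 < Module.finrank F M)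
  have h6 : (Module.finrank F M : ℤ) * hgt k (p.coeff j) ≤
      Module.finrank F M * (p.natDegree * b) := by linarith
  exact le_of_mul_le_mul_left h6 h0

end coef

section tower

variable {κ E F Ω : Type} [Field κ] [Field E] [Field F] [Field Ω] [IsAlgClosed κ] [CharZero κ]
  [Algebra κ F] [IsFF κ F] [Algebra κ Ω] [Algebra F Ω] [IsScalarTower κ F Ω]

/-- Heights in different extensions. -/
theorem hgt_norm (L M : IntermediateField F Ω) [FiniteDimensional F L] [FiniteDimensional F M]
    {w : Ω} (hL : w ∈ L) (hM : w ∈ M) : hgt κ (⟨w, hM⟩ : M) * Module.finrank F L =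
      Module.finrank F M * hgt κ (⟨w, hL⟩ : L) := by
  have hLF : IsFF κ L := isFF_of_finite (F := F)
  have hMF : IsFF κ M := isFF_of_finite (F := F)
  have hw : IsIntegral F w := by
    have h1 : IsIntegral F (⟨w, hL⟩ : L) := Algebra.IsIntegral.isIntegral _
    exact h1.map L.val
  have hfd : FiniteDimensional F F⟮w⟯ := IntermediateField.adjoin.finiteDimensional hw
  have hWF : IsFF κ F⟮w⟯ := isFF_of_finite (F := F)
  have hle : F⟮w⟯ ≤ L := by
    rw [IntermediateField.adjoin_simple_le_iff]
    exact hL
  have hle' : F⟮w⟯ ≤ M := by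
    rw [IntermediateField.adjoin_simple_le_iff]
    exact hM
  have h1 := TH951.MN.hgt_emb (k := κ) (IntermediateField.inclusion hle)
    (IntermediateField.AdjoinSimple.gen F w)
  have h2 := TH951.MN.hgt_emb (k := κ) (IntermediateField.inclusion hle')
    (IntermediateField.AdjoinSimple.gen F w)
  have e1 : IntermediateField.inclusion hle (IntermediateField.AdjoinSimple.gen F w) = ⟨w, hL⟩ :=
    rfl
  have e2 : IntermediateField.inclusion hle' (IntermediateField.AdjoinSimple.gen F w) = ⟨w, hM⟩ :=
    rfl
  rw [e1] at h1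
  rw [e2] at h2
  have h0 : (0 : ℤ) < Module.finrank F F⟮w⟯ := by
    exact_mod_cast (Module.finrank_pos : 0 < Module.finrank F F⟮w⟯)
  apply mul_right_cancel₀ h0.ne'
  rw [mul_right_comm, h2, mul_assoc (Module.finrank F M : ℤ) (hgt κ (⟨w, hL⟩ : L)), h1]
  ring

variable [Algebra E F] [Algebra E Ω] [IsScalarTower E F Ω]

omit [Field κ] [IsAlgClosed κ] [CharZero κ] [Algebra κ F] [IsFF κ F] [Algebra κ Ω]
  [IsScalarTower κ F Ω] in
/-- The degree of the field generated over a larger field. -/
theorem finrank_adjoin_le [CharZero E] (S : Set Ω) (LE : IntermediateField E Ω)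
    [FiniteDimensional E LE] (hS : S ⊆ LE) : FiniteDimensional F (IntermediateField.adjoin F S) ∧
      Module.finrank F (IntermediateField.adjoin F S) ≤ Module.finrank E LE := by
  obtain ⟨θ, hθ⟩ := Field.exists_primitive_element E LE
  have h1 : ∀ w ∈ LE, w ∈ E⟮(θ : Ω)⟯ := by
    intro w hw
    have h2 : (⟨w, hw⟩ : LE) ∈ E⟮θ⟯ := by rw [hθ]; trivial
    have h3 : (E⟮θ⟯).map LE.val = E⟮(θ : Ω)⟯ := by
      rw [IntermediateField.adjoin_map, Set.image_singleton]
      rfl
    rw [← h3]
    exact ⟨_, h2, rfl⟩
  have h2 : ∀ w ∈ E⟮(θ : Ω)⟯, w ∈ F⟮(θ : Ω)⟯ := by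
    intro w hw
    have h3 : (E⟮(θ : Ω)⟯).toSubfield ≤ (F⟮(θ : Ω)⟯).toSubfield := by
      rw [IntermediateField.adjoin_toSubfield, Subfield.closure_le]
      rintro z (⟨r, rfl⟩ | hz)
      · rw [IsScalarTower.algebraMap_apply E F Ω]
        exact IntermediateField.algebraMap_mem _ _
      · exact IntermediateField.subset_adjoin _ _ hz
    exact h3 hw
  have hint : IsIntegral E (θ : Ω) := by
    have h3 : IsIntegral E θ := Algebra.IsIntegral.isIntegral _
    exact h3.map LE.val
  have hintF : IsIntegral F (θ : Ω) := hint.tower_top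
  have hfd : FiniteDimensional F F⟮(θ : Ω)⟯ := IntermediateField.adjoin.finiteDimensional hintF
  have hle : IntermediateField.adjoin F S ≤ F⟮(θ : Ω)⟯ := by
    rw [IntermediateField.adjoin_le_iff]
    exact fun w hw => h2 w (h1 w (hS hw))
  have h3 : FiniteDimensional F (IntermediateField.adjoin F S) :=
    FiniteDimensional.of_injective (IntermediateField.inclusion hle).toLinearMap
      (IntermediateField.inclusion hle).injective
  refine ⟨h3, ?_⟩
  have h4 : Module.finrank F (IntermediateField.adjoin F S) ≤ Module.finrank F F⟮(θ : Ω)⟯ :=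
    LinearMap.finrank_le_finrank_of_injective (f := (IntermediateField.inclusion hle).toLinearMap)
      (IntermediateField.inclusion hle).injective
  have h5 : Module.finrank F F⟮(θ : Ω)⟯ ≤ (minpoly E (θ : Ω)).natDegree := by
    rw [IntermediateField.adjoin.finrank hintF]
    have h6 : minpoly F (θ : Ω) ∣ (minpoly E (θ : Ω)).map (algebraMap E F) :=
      minpoly.dvd_map_of_isScalarTower E F _
    have h7 := Polynomial.natDegree_le_of_dvd h6
      ((minpoly.monic hint).map _).ne_zero
    rwa [Polynomial.natDegree_map] at h7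
  have h6 : (minpoly E (θ : Ω)).natDegree = Module.finrank E LE := by
    have h7 : minpoly E (θ : Ω) = minpoly E θ := minpoly.algHom_eq LE.val LE.val.injective θ
    rw [h7]
    exact (Field.primitive_element_iff_minpoly_natDegree_eq E θ).1 hθ
  omega

end tower

end Pool.Agent.Y735.R
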