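import Pool.Agent.Y735.R.Coef

/-!
Heights of the coefficients of the minimal polynomials of the combinations of the coordinates of
points of bounded degree.
-/

set_option autoImplicit false

open FF Pool.Agent.W603.LV Pool.Agent.W603.PV
open scoped IntermediateField

namespace Pool.Agent.Y735.R

variable {κ E F Ω : Type} [Field κ] [Field E] [Field F] [Field Ω] [IsAlgClosed κ] [CharZero κ]
  [Algebra κ F] [IsFF κ F] [Algebra κ Ω] [Algebra F Ω] [IsScalarTower κ F Ω]
  [Algebra E F] [Algebra E Ω] [IsScalarTower E F Ω] [IsAlgClosed Ω] [CharZero E]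

theorem hgt_minpoly {n r : ℕ} (Q : (Fin (n + 1) → Ω) → Prop)
    (hQ : ∀ (L : IntermediateField E Ω) (σ : L →ₐ[E] Ω) (x : Fin (n + 1) → L),
      Q (fun j => (x j : Ω)) → Q fun j => σ (x j)) (B : ℤ)
    (hB : ∀ x : Fin (n + 1) → Ω, Q x → ∀ LE : IntermediateField E Ω, FiniteDimensional E LE →
      Module.finrank E LE ≤ r → (∀ j, x j ∈ LE) → ∀ c : Fin (n + 1) → ℕ,
      ∃ L : IntermediateField F Ω, FiniteDimensional F L ∧
        ∃ h : ∑ j, (c j : Ω) * x j ∈ L, hgt κ (⟨_, h⟩ : L) ≤ B)
    {x : Fin (n + 1) → Ω} (hx : Q x) {LE : IntermediateField E Ω} (hfd : FiniteDimensional E LE)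
    (hr : Module.finrank E LE ≤ r) (hxL : ∀ j, x j ∈ LE) (c : Fin (n + 1) → ℕ) :
    (minpoly E (∑ j, (c j : Ω) * x j)).natDegree ≤ r ∧
    ∀ j, hgt κ (algebraMap E F ((minpoly E (∑ j, (c j : Ω) * x j)).coeff j)) ≤ r * B := by
  classical
  obtain ⟨u, hu⟩ : ∃ u, u = ∑ j, (c j : Ω) * x j := ⟨_, rfl⟩
  rw [← hu]
  have huL : u ∈ LE := by
    rw [hu]
    exact sum_mem fun j _ => mul_mem (natCast_mem LE (c j)) (hxL j)
  obtain ⟨u', hu'⟩ : ∃ u' : LE, u' = ⟨u, huL⟩ := ⟨_, rfl⟩
  have hint' : IsIntegral E u' := Algebra.IsIntegral.isIntegral _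
  have hint : IsIntegral E u := by
    have := hint'.map LE.val
    rwa [hu'] at this
  have hmin : minpoly E u = minpoly E u' := by
    have := minpoly.algHom_eq LE.val LE.val.injective u'
    rw [← this, hu']
    rfl
  have hdeg : (minpoly E u).natDegree ≤ r := by
    rw [hmin]
    exact (minpoly.natDegree_le u').trans hr
  refine ⟨hdeg, fun j => ?_⟩
  have hB0 : 0 ≤ B := by
    obtain ⟨L, -, h, hL⟩ := hB x hx LE hfd hr hxL c
    exact (hgt_nonneg _).trans hL
  obtain ⟨p, hp⟩ : ∃ p, p = (minpoly E u).map (algebraMap E F) := ⟨_, rfl⟩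
  have hpm : p.Monic := by rw [hp]; exact (minpoly.monic hint).map _
  have hpd : p.natDegree ≤ r := by rw [hp, Polynomial.natDegree_map]; exact hdeg
  have hpj : p.coeff j = algebraMap E F ((minpoly E u).coeff j) := by
    rw [hp, Polynomial.coeff_map]
  obtain ⟨M, hM⟩ : ∃ M : IntermediateField F Ω, M = IntermediateField.adjoin F (p.rootSet Ω) :=
    ⟨_, rfl⟩
  have hMfd : FiniteDimensional F M := by
    rw [hM]
    have : Finite (p.rootSet Ω) := (p.rootSet_finite Ω)
    exact IntermediateField.finiteDimensional_adjoin fun w hw =>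
      ⟨p, hpm, ((Polynomial.mem_rootSet.1 hw).2 : _)⟩
  have hMF : IsFF κ M := isFF_of_finite (F := F)
  have hs : (p.map (algebraMap F M)).Splits := by
    rw [hM]
    exact (IntermediateField.adjoin_rootSet_isSplittingField
      (IsAlgClosed.splits (p.map (algebraMap F Ω)))).splits
  rw [← hpj]
  refine (hgt_coeff_le p hpm hs B (fun w hw => ?_) j).trans ?_
  · have hw1 : Polynomial.aeval (w : Ω) (minpoly E u') = 0 := by
      have h1 := congrArg (algebraMap M Ω) hw
      rw [map_zero, ← Polynomial.aeval_algebraMap_apply, hp, Polynomial.aeval_map_algebraMap,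
        hmin] at h1
      exact h1
    have hw2 : (w : Ω) ∈ (minpoly E u').rootSet Ω := by
      rw [Polynomial.mem_rootSet_of_ne (minpoly.ne_zero hint')]
      exact hw1
    rw [← Algebra.IsAlgebraic.range_eval_eq_rootSet_minpoly Ω u'] at hw2
    obtain ⟨σ, hσ⟩ := hw2
    have hσ' : σ u' = w := hσ
    have h2 := hQ LE σ (fun j => ⟨x j, hxL j⟩) hx
    have hfr : FiniteDimensional E σ.fieldRange :=
      Module.Finite.of_surjective (σ.rangeRestrict.toLinearMap) σ.rangeRestrict_surjective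
    have hrr : Module.finrank E σ.fieldRange ≤ r := by
      have h3 := LinearMap.finrank_le_finrank_of_surjective (f := σ.rangeRestrict.toLinearMap)
        σ.rangeRestrict_surjective
      exact h3.trans hr
    obtain ⟨L, hLfd, hL, hLB⟩ := hB _ h2 σ.fieldRange hfr hrr (fun j => ⟨_, rfl⟩) c
    have hsum : ∑ j, (c j : Ω) * σ ⟨x j, hxL j⟩ = w := by
      rw [← hσ', hu']
      have h3 : (⟨u, huL⟩ : LE) = ∑ j, (c j : LE) * ⟨x j, hxL j⟩ := by
        apply Subtype.ext
        refine hu.trans ?_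
        push_cast
        rfl
      rw [h3, map_sum]
      exact Finset.sum_congr rfl fun j _ => by rw [map_mul, map_natCast]
    have hwL : (w : Ω) ∈ L := by rw [← hsum]; exact hL
    have hLB' : hgt κ (⟨(w : Ω), hwL⟩ : L) ≤ B := by
      refine le_of_eq_of_le ?_ hLB
      congr 1
      exact Subtype.ext hsum.symm
    have h4 := hgt_norm (κ := κ) L M hwL w.2
    have h5 : (1 : ℤ) ≤ Module.finrank F L := by
      exact_mod_cast (Module.finrank_pos : 0 < Module.finrank F L)
    have h6 : (0 : ℤ) ≤ Module.finrank F M := by positivity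
    have h7 : 0 ≤ hgt κ w := hgt_nonneg _
    have h8 : hgt κ (⟨(w : Ω), w.2⟩ : M) = hgt κ w := rfl
    rw [h8] at h4
    nlinarith
  · exact mul_le_mul_of_nonneg_right (by exact_mod_cast hpd) hB0

end Pool.Agent.Y735.R
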