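import Pool.Agent.TH951.MN.Clus

/-!
The degree of the discriminant of a finite extension of function fields of degree `r` is at most
`2 r - 2` times the height of a generator.
-/

set_option autoImplicit false

open FF Pool.Agent.W603.LV Pool.Agent.W603.PV

namespace Pool.Agent.Y735.R

universe u v w

section sum

variable {k : Type u} [Field k] [IsAlgClosed k] [CharZero k]
  {F : Type v} [Field F] [Algebra k F] [IsFF k F] {L : Type w} [Field L] [Algebra k L]
  [Algebra F L] [IsScalarTower k F L] [IsFF k L] [FiniteDimensional F L]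

omit [FiniteDimensional F L] in
/-- The sum of the ramification indices over a place. -/
theorem sum_ram (v : Place k F) (T : Finset (Place k L))
    (hT : ∀ P : Place k L, under F P = v ↔ P ∈ T) :
    ∑ P ∈ T, (ram F P : ℤ) = Module.finrank F L := by
  classical
  obtain ⟨f, hf, hv⟩ := TH951.MN.exists_pole v
  obtain ⟨T0, hT0⟩ := exists_supp (k := k) (Finset.univ : Finset Unit) (fun _ => f)
  have h1 : hgt k f = max (-v.ord f) 0 := by
    rw [hgt_finset f (insert v T0) fun P hP =>
      Finset.mem_insert_of_mem (hT0 () (Finset.mem_univ _) P hP)]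
    refine Finset.sum_eq_single v (fun P _ hP => ?_) fun h =>
      absurd (Finset.mem_insert_self v T0) h
    have := hv P hP
    exact max_eq_right (by omega)
  have h2 : 0 < hgt k f := by
    by_contra hcon
    obtain ⟨c, hc⟩ := const_of_hgt (k := k) (f := f) (by omega)
    apply hf
    rw [hc]
    exact isAlgebraic_algebraMap c
  have h3 : hgt k f = -v.ord f := by
    rw [h1] at h2 ⊢
    rcases le_total (-v.ord f) 0 with h | h
    · rw [max_eq_right h] at h2
      exact absurd h2 (lt_irrefl _)
    · exact max_eq_left h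
  obtain ⟨T1, hT1⟩ := exists_supp (k := k) (Finset.univ : Finset Unit)
    (fun _ => algebraMap F L f)
  have h4 : hgt k (algebraMap F L f) = ∑ P ∈ T, (ram F P : ℤ) * hgt k f := by
    rw [hgt_finset (algebraMap F L f) (T ∪ T1) fun P hP =>
      Finset.mem_union_right _ (hT1 () (Finset.mem_univ _) P hP)]
    have h5 : ∀ P : Place k L, max (-P.ord (algebraMap F L f)) 0 =
        if P ∈ T then (ram F P : ℤ) * hgt k f else 0 := by
      intro P
      rw [ord_under]
      have h0 : (0 : ℤ) ≤ ram F P := by positivity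
      split_ifs with hP
      · rw [(hT P).2 hP, h3, ← mul_neg]
        refine max_eq_left (mul_nonneg h0 ?_)
        rw [← h3]
        exact hgt_nonneg _
      · have h6 : under F P ≠ v := fun h => hP ((hT P).1 h)
        have h7 := mul_nonneg h0 (hv _ h6)
        exact max_eq_right (by omega)
    rw [Finset.sum_congr rfl fun P _ => h5 P, ← Finset.sum_filter]
    refine Finset.sum_congr ?_ fun _ _ => rfl
    ext P
    simp only [Finset.mem_filter, Finset.mem_union]
    tauto
  rw [hgt_algebraMap, ← Finset.sum_mul] at h4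
  exact (mul_right_cancel₀ h2.ne' h4).symm

variable {M : Type w} [Field M] [Algebra k M] [Algebra F M]
  [IsScalarTower k F M] [FiniteDimensional F M] [IsFF k M]

/-- The places below with respect to an embedding. -/
theorem emb_data (e : L →ₐ[F] M) : ∃ (pl : Place k M → Place k L) (nn : Place k M → ℕ),
    (∀ W, 0 < nn W) ∧ (∀ W y, W.ord (e y) = nn W * (pl W).ord y) ∧
    (∀ W, under F (pl W) = under F W) ∧ (∀ W, ram F W = nn W * ram F (pl W)) ∧
    ∀ P (T : Finset (Place k M)), (∀ W, pl W = P ↔ W ∈ T) →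
      (∑ W ∈ T, (nn W : ℤ)) * Module.finrank F L = Module.finrank F M := by
  let _ : Algebra L M := e.toRingHom.toAlgebra
  have h1 : IsScalarTower F L M := IsScalarTower.of_algebraMap_eq fun x => (e.commutes x).symm
  have h2 : IsScalarTower k L M := by
    refine IsScalarTower.of_algebraMap_eq fun c => ?_
    rw [IsScalarTower.algebraMap_apply k F M, IsScalarTower.algebraMap_apply k F L]
    exact (e.commutes _).symm
  have : FiniteDimensional L M := FiniteDimensional.right F L M
  have h3 : ∀ (W : Place k M) (y : L), W.ord (e y) = ram L W * (under L W).ord y :=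
    fun W y => ord_under W y
  have h4 : ∀ W : Place k M, under F (under L W) = under F W := by
    intro W
    refine TH951.MN.place_eq_of_mul _ _ (ram L W * ram F (under L W)) (ram F W)
      (Nat.mul_pos (ram_spec (F := L) W).1 (ram_spec (F := F) _).1) ?_
    intro f
    rw [← ord_under W f, Nat.cast_mul, mul_assoc, ← ord_under (under L W) f, ← h3]
    exact congrArg W.ord (e.commutes f)
  refine ⟨fun W => under L W, fun W => ram L W, fun W => (ram_spec (F := L) W).1, h3, h4,
    fun W => ?_, fun P T hT => ?_⟩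
  · obtain ⟨f, -, hf⟩ := (under F W).surj
    have h5 : W.ord (algebraMap F M f) = ram F W * (under F W).ord f := ord_under W f
    have h6 : W.ord (algebraMap F M f) = ram L W * (under L W).ord (algebraMap F L f) := by
      rw [← h3]
      exact congrArg W.ord (e.commutes f).symm
    rw [ord_under (under L W) f, h4 W, h5, hf, mul_one, mul_one] at h6
    exact_mod_cast h6
  · have h5 := sum_ram (F := L) (L := M) P T hT
    rw [h5, mul_comm]
    exact_mod_cast Module.finrank_mul_finrank F L M

end sum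

section pair

variable {k : Type u} [Field k] [IsAlgClosed k] [CharZero k] {L : Type v} [Field L] [Algebra k L]
  [IsFF k L] {M : Type w} [Field M] [Algebra k M]

omit [IsAlgClosed k] [CharZero k] in
theorem pair_ge (W : Place k M) {a b : M} (hab : a ≠ b) :
    min 0 (W.ord a) + min 0 (W.ord b) ≤ W.ord (a - b) := by
  have h1 : Ge W (min 0 (W.ord a) + min 0 (W.ord b)) (a - b) := by
    refine Ge.sub (Or.inr ?_) (Or.inr ?_)
    · have h1 := min_le_left 0 (W.ord b)
      have h2 := min_le_right 0 (W.ord a)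
      linarith
    · have h1 := min_le_left 0 (W.ord a)
      have h2 := min_le_right 0 (W.ord b)
      linarith
  exact h1.resolve_left (sub_ne_zero.2 hab)

/-- Two embeddings with the same place below. -/
theorem pair_same (W : Place k M) (P : Place k L) {m : ℕ} (hm : 0 < m) (e e' : L →+* M)
    (he : ∀ y, W.ord (e y) = m * P.ord y) (he' : ∀ y, W.ord (e' y) = m * P.ord y)
    (hk : ∀ c : k, e (algebraMap k L c) = e' (algebraMap k L c)) {u : L} (hu : e u ≠ e' u) :
    min 0 (W.ord (e u)) + min 0 (W.ord (e' u)) + m ≤ W.ord (e u - e' u) := by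
  have hm0 : (0 : ℤ) ≤ m := by positivity
  have hge : ∀ y, Ge P 1 y → Ge W m (e y) := by
    rintro y (rfl | h)
    · left; rw [map_zero]
    · right; rw [he]; nlinarith
  have hge' : ∀ y, Ge P 1 y → Ge W m (e' y) := by
    rintro y (rfl | h)
    · left; rw [map_zero]
    · right; rw [he']; nlinarith
  rw [he u, he' u]
  by_cases h0 : P.ord u < 0
  · have hu0 : u ≠ 0 := by
      rintro rfl
      rw [P.ord_zero] at h0
      exact lt_irrefl _ h0
    have h1 : Ge P 1 u⁻¹ := Or.inr (by rw [P.ord_inv]; omega)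
    have h2 := (hge' _ h1).sub (hge _ h1)
    have heu : e u ≠ 0 := (map_ne_zero e).2 hu0
    have heu' : e' u ≠ 0 := (map_ne_zero e').2 hu0
    have h3 : e u - e' u = e u * (e' u * (e' u⁻¹ - e u⁻¹)) := by
      rw [map_inv₀, map_inv₀]
      field_simp
    have h4 : e' u⁻¹ - e u⁻¹ ≠ 0 := by
      intro h4
      apply hu
      rw [← sub_eq_zero, h3, h4, mul_zero, mul_zero]
    have h5 := h2.resolve_left h4
    rw [h3, W.ord_mul heu (mul_ne_zero heu' h4), W.ord_mul heu' h4, he, he']
    have h6 : (m : ℤ) * P.ord u ≤ 0 := by nlinarith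
    rw [min_eq_right h6]
    linarith
  · push Not at h0
    obtain ⟨c, hc⟩ := exists_const P (Or.inr h0 : Ge P 0 u)
    have h1 := (hge _ hc).sub (hge' _ hc)
    have h2 : e (u - algebraMap k L c) - e' (u - algebraMap k L c) = e u - e' u := by
      rw [map_sub, map_sub, hk]
      ring
    rw [h2] at h1
    have h3 := h1.resolve_left (sub_ne_zero.2 hu)
    have h6 : 0 ≤ (m : ℤ) * P.ord u := mul_nonneg hm0 h0
    rw [min_eq_left h6]
    linarith

end pair

section main

variable {k : Type u} [Field k] [IsAlgClosed k] [CharZero k]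
  {F : Type v} [Field F] [Algebra k F] [IsFF k F] {L : Type w} [Field L] [Algebra k L]
  [Algebra F L] [IsScalarTower k F L] [IsFF k L] [FiniteDimensional F L]

/-- **The bound for the discriminant.** -/
theorem disc_le (u : L) (hu : ∀ (M : Type w) [Field M] [Algebra F M] (e e' : L →ₐ[F] M),
    e u = e' u → e = e') :
    disc k F L ≤ (2 * Module.finrank F L - 2) * hgt k u := by
  classical
  have hF : CharZero F := charZero_of_injective_algebraMap (algebraMap k F).injective
  obtain ⟨M, _, _, hfin, hgal, -, hcard⟩ := TH951.MN.exists_gal F L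
  let _ : Algebra k M := ((algebraMap F M).comp (algebraMap k F)).toAlgebra
  have hst : IsScalarTower k F M := IsScalarTower.of_algebraMap_eq fun _ => rfl
  have hM : IsFF k M := isFF_of_finite (F := F)
  choose pl nn hnn hord hund hram hsum using fun e : L →ₐ[F] M => emb_data (k := k) e
  obtain ⟨r, hr⟩ : ∃ r : ℕ, r = Module.finrank F L := ⟨_, rfl⟩
  obtain ⟨N, hN⟩ : ∃ N : ℕ, N = Module.finrank F M := ⟨_, rfl⟩
  have hr0 : 0 < r := by rw [hr]; exact Module.finrank_pos
  have hN0 : 0 < N := by rw [hN]; exact Module.finrank_pos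
  -- the supports
  obtain ⟨U1, hU1⟩ := exists_supp (k := k)
    (Finset.univ : Finset ((L →ₐ[F] M) × (L →ₐ[F] M))) (fun p => p.1 u - p.2 u)
  obtain ⟨U3, hU3⟩ := exists_supp (k := k) (Finset.univ : Finset (L →ₐ[F] M)) (fun e => e u)
  have hramf := ram_finite (k := k) (F := F) (L := L)
  obtain ⟨S, hS⟩ : ∃ S : Finset (Place k F), S = (U1.image (fun W => under F W) ∪
    U3.image (fun W => under F W)) ∪ hramf.toFinset.image (fun P => under F P) := ⟨_, rfl⟩
  obtain ⟨T, hT⟩ : ∃ T : Finset (Place k M), ∀ W, W ∈ T ↔ under F W ∈ S :=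
    ⟨(finite_over_set (L := M) S.finite_toSet).toFinset, fun W => by
      rw [Set.Finite.mem_toFinset]; rfl⟩
  obtain ⟨TL, hTL⟩ : ∃ TL : Finset (Place k L), ∀ P, P ∈ TL ↔ under F P ∈ S :=
    ⟨(finite_over_set (L := L) S.finite_toSet).toFinset, fun W => by
      rw [Set.Finite.mem_toFinset]; rfl⟩
  have hplT : ∀ e W, W ∈ T → pl e W ∈ TL := fun e W hW => by
    rw [hTL, hund, ← hT]; exact hW
  have hT1 : ∀ e e' : L →ₐ[F] M, ∀ W : Place k M, W.ord (e u - e' u) ≠ 0 → W ∈ T := by
    intro e e' W hW
    rw [hT, hS]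
    exact Finset.mem_union_left _ (Finset.mem_union_left _
      (Finset.mem_image_of_mem _ (hU1 (e, e') (Finset.mem_univ _) W hW)))
  have hT3 : ∀ e : L →ₐ[F] M, ∀ W : Place k M, W.ord (e u) ≠ 0 → W ∈ T := by
    intro e W hW
    rw [hT, hS]
    exact Finset.mem_union_left _ (Finset.mem_union_right _
      (Finset.mem_image_of_mem _ (hU3 e (Finset.mem_univ _) W hW)))
  have hdisc : disc k F L = ∑ P ∈ TL, ((ram F P : ℤ) - 1) := by
    unfold disc
    rw [finsum_eq_sum_of_support_subset (s := TL)]
    intro P hP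
    rw [Finset.mem_coe, hTL, hS]
    exact Finset.mem_union_right _ (Finset.mem_image_of_mem _ (hramf.mem_toFinset.2 hP))
  -- the heights
  have hH : ∀ e : L →ₐ[F] M, ∑ W ∈ T, min 0 (W.ord (e u)) = - hgt k (e u) := by
    intro e
    rw [hgt_finset (e u) T (hT3 e), ← Finset.sum_neg_distrib]
    refine Finset.sum_congr rfl fun W _ => ?_
    rcases le_total 0 (W.ord (e u)) with h | h
    · rw [min_eq_left h, max_eq_right (by omega), neg_zero]
    · rw [min_eq_right h, max_eq_left (by omega), neg_neg]
  have hHr : ∀ e : L →ₐ[F] M, (hgt k (e u) : ℚ) * r = N * hgt k u := fun e => by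
    have h1 := TH951.MN.hgt_emb (k := k) e u
    rw [← hr, ← hN] at h1
    exact_mod_cast h1
  -- the local inequality
  have hloc : ∀ W : Place k M, ∀ e e' : L →ₐ[F] M, e ≠ e' →
      (min 0 (W.ord (e u)) + min 0 (W.ord (e' u)) +
        if pl e' W = pl e W then (nn e W : ℤ) else 0) ≤ W.ord (e u - e' u) := by
    intro W e e' hne
    have hne' : e u ≠ e' u := fun h => hne (hu M e e' h)
    split_ifs with h
    · refine pair_same W (pl e W) (hnn e W) (e : L →+* M) (e' : L →+* M) (hord e W) (fun y => ?_)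
        (fun c => ?_) hne'
      · have h1 : nn e' W = nn e W := by
          have h2 := hram e W
          rw [hram e' W, h] at h2
          exact Nat.eq_of_mul_eq_mul_right (ram_spec (F := F) (pl e W)).1 h2
        have h2 := hord e' W y
        rw [h, h1] at h2
        exact h2
      · rw [IsScalarTower.algebraMap_apply k F L]
        exact (e.commutes _).trans (e'.commutes _).symm
    · rw [add_zero]
      exact pair_ge W hne'
  -- the numbers of embeddings
  obtain ⟨ν, hν⟩ : ∃ ν : Place k M → Place k L → ℚ, ∀ W P,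
    ν W P = ((Finset.univ.filter fun e : L →ₐ[F] M => pl e W = P).card : ℚ) := ⟨_, fun _ _ => rfl⟩
  obtain ⟨c, hc⟩ : ∃ c : Place k M → Place k L → ℚ, ∀ W P,
    c W P = (ram F W : ℚ) / ram F P := ⟨_, fun _ _ => rfl⟩
  have hrP : ∀ P : Place k L, (0 : ℚ) < ram F P := fun P => by
    exact_mod_cast (ram_spec (F := F) P).1
  have hcn : ∀ e W, c W (pl e W) = nn e W := by
    intro e W
    rw [hc, hram e W, Nat.cast_mul, mul_div_cancel_right₀ _ (hrP _).ne']
  have hc0 : ∀ W P, 0 ≤ c W P := fun W P => by
    rw [hc]; positivity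
  have hstep : ∀ W ∈ T, ∑ e : L →ₐ[F] M, ∑ e' ∈ Finset.univ.erase e,
      (if pl e' W = pl e W then (nn e W : ℚ) else 0) =
      ∑ P ∈ TL, ν W P * c W P * (ν W P - 1) := by
    intro W hW
    have h1 : ∀ e : L →ₐ[F] M, ∑ e' ∈ Finset.univ.erase e,
        (if pl e' W = pl e W then (nn e W : ℚ) else 0) =
        c W (pl e W) * (ν W (pl e W) - 1) := by
      intro e
      rw [Finset.sum_erase_eq_sub (Finset.mem_univ e), if_pos rfl, ← Finset.sum_filter,
        Finset.sum_const, nsmul_eq_mul, ← hν, hcn]
      ring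
    rw [Finset.sum_congr rfl fun e _ => h1 e, ← Finset.sum_fiberwise_of_maps_to
      (s := Finset.univ) (t := TL) (g := fun e => pl e W) (fun e _ => hplT e W hW)]
    refine Finset.sum_congr rfl fun P _ => ?_
    have h2 : ∀ e ∈ Finset.univ.filter (fun e : L →ₐ[F] M => pl e W = P),
        c W (pl e W) * (ν W (pl e W) - 1) = c W P * (ν W P - 1) := by
      intro e he
      rw [(Finset.mem_filter.1 he).2]
    rw [Finset.sum_congr rfl h2, Finset.sum_const, nsmul_eq_mul, ← hν]
    ring
  -- the sums over the places over one place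
  have hcnt : ∀ P ∈ TL, ∑ W ∈ T, ν W P * c W P = N := by
    intro P hP
    have h1 : ∀ W ∈ T, ν W P * c W P =
        ∑ e : L →ₐ[F] M, if pl e W = P then (nn e W : ℚ) else 0 := by
      intro W _
      rw [← Finset.sum_filter]
      have h2 : ∀ e ∈ Finset.univ.filter (fun e : L →ₐ[F] M => pl e W = P),
          (nn e W : ℚ) = c W P := by
        intro e he
        rw [← hcn, (Finset.mem_filter.1 he).2]
      rw [Finset.sum_congr rfl h2, Finset.sum_const, nsmul_eq_mul, ← hν]
    rw [Finset.sum_congr rfl h1, Finset.sum_comm]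
    have h3 : ∀ e : L →ₐ[F] M, (∑ W ∈ T, if pl e W = P then (nn e W : ℚ) else 0) =
        (N : ℚ) / r := by
      intro e
      have h4 := hsum e P (T.filter fun W => pl e W = P) (fun W => by
        rw [Finset.mem_filter]
        refine ⟨fun h => ⟨?_, h⟩, fun h => h.2⟩
        rw [hT, ← hund e W, h, ← hTL]
        exact hP)
      rw [← hr, ← hN] at h4
      have h5 : (∑ W ∈ T.filter (fun W => pl e W = P), (nn e W : ℚ)) * r = N := by
        exact_mod_cast h4
      rw [← Finset.sum_filter, eq_div_iff (by positivity)]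
      exact h5
    rw [Finset.sum_congr rfl fun e _ => h3 e, Finset.sum_const, Finset.card_univ, hcard, ← hr,
      nsmul_eq_mul]
    field_simp
  have hest : ∀ P ∈ TL, ((ram F P : ℚ) - 1) * N ≤ ∑ W ∈ T, ν W P * c W P * (ν W P - 1) := by
    intro P hP
    have h1 : ∀ W ∈ T, (2 * (ram F P : ℚ) - 1) * (ν W P * c W P) -
        (if under F W = under F P then (ram F P : ℚ) * ram F W else 0) ≤
        ν W P * c W P * (ν W P - 1) := by
      intro W _
      split_ifs with h
      · have h2 : (ram F P : ℚ) * ram F W = c W P * (ram F P : ℚ) ^ 2 := by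
          have := (hrP P).ne'
          rw [hc]
          field_simp
        rw [h2]
        have h3 := mul_nonneg (hc0 W P) (sq_nonneg (ν W P - ram F P))
        nlinarith
      · have h2 : ν W P = 0 := by
          rw [hν, Nat.cast_eq_zero, Finset.card_eq_zero, Finset.filter_eq_empty_iff]
          intro e _ he
          apply h
          rw [← hund e W, he]
        rw [h2]
        simp
    refine le_trans (le_of_eq ?_) (Finset.sum_le_sum h1)
    have h2 := sum_ram (F := F) (L := M) (under F P)
      (T.filter fun W => under F W = under F P) (fun W => by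
        rw [Finset.mem_filter]
        refine ⟨fun h => ⟨?_, h⟩, fun h => h.2⟩
        rw [hT, h, ← hTL]
        exact hP)
    rw [← hN] at h2
    have h3 : ∑ W ∈ T.filter (fun W => under F W = under F P), (ram F W : ℚ) = N := by
      exact_mod_cast h2
    rw [Finset.sum_sub_distrib, ← Finset.mul_sum, hcnt P hP, ← Finset.sum_filter,
      ← Finset.mul_sum, h3]
    ring
  -- the conclusion
  have hsum0 : ∑ e : L →ₐ[F] M, ∑ e' ∈ Finset.univ.erase e,
      ∑ W ∈ T, (W.ord (e u - e' u) : ℚ) = 0 := by
    refine Finset.sum_eq_zero fun e _ => Finset.sum_eq_zero fun e' _ => ?_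
    have := sum_ord_finset (k := k) (e u - e' u) T (hT1 e e')
    exact_mod_cast this
  have hge : ∑ e : L →ₐ[F] M, ∑ e' ∈ Finset.univ.erase e, ∑ W ∈ T,
      (((min 0 (W.ord (e u)) : ℤ) : ℚ) + ((min 0 (W.ord (e' u)) : ℤ) : ℚ) +
        if pl e' W = pl e W then (nn e W : ℚ) else 0) ≤
      ∑ e : L →ₐ[F] M, ∑ e' ∈ Finset.univ.erase e, ∑ W ∈ T, (W.ord (e u - e' u) : ℚ) := by
    refine Finset.sum_le_sum fun e _ => Finset.sum_le_sum fun e' he' => Finset.sum_le_sum
      fun W _ => ?_
    have h1 := hloc W e e' (Finset.ne_of_mem_erase he').symm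
    have h2 : (((min 0 (W.ord (e u)) + min 0 (W.ord (e' u)) +
        if pl e' W = pl e W then (nn e W : ℤ) else 0 : ℤ)) : ℚ) ≤ (W.ord (e u - e' u) : ℚ) := by
      exact_mod_cast h1
    have h3 : ((if pl e' W = pl e W then (nn e W : ℤ) else 0 : ℤ) : ℚ) =
        if pl e' W = pl e W then (nn e W : ℚ) else 0 := by
      split_ifs <;> simp
    rw [Int.cast_add, Int.cast_add, h3] at h2
    exact h2
  rw [hsum0] at hge
  have hsplit : ∑ e : L →ₐ[F] M, ∑ e' ∈ Finset.univ.erase e, ∑ W ∈ T,
      (((min 0 (W.ord (e u)) : ℤ) : ℚ) + ((min 0 (W.ord (e' u)) : ℤ) : ℚ) +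
        if pl e' W = pl e W then (nn e W : ℚ) else 0) =
      -(2 * (r - 1) * (N * hgt k u)) + ∑ P ∈ TL, ∑ W ∈ T, ν W P * c W P * (ν W P - 1) := by
    have hHq : ∀ e : L →ₐ[F] M, ∑ W ∈ T, ((min 0 (W.ord (e u)) : ℤ) : ℚ) =
        -(N * hgt k u / r) := by
      intro e
      have h1 : ∑ W ∈ T, ((min 0 (W.ord (e u)) : ℤ) : ℚ) = ((- hgt k (e u) : ℤ) : ℚ) := by
        rw [← hH e]
        push_cast
        rfl
      rw [h1, ← hHr e]
      have : (r : ℚ) ≠ 0 := by positivity
      push_cast
      field_simp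
    have h1 : ∀ e e' : L →ₐ[F] M, ∑ W ∈ T, (((min 0 (W.ord (e u)) : ℤ) : ℚ) +
        ((min 0 (W.ord (e' u)) : ℤ) : ℚ) + if pl e' W = pl e W then (nn e W : ℚ) else 0) =
        -(2 * (N * hgt k u / r)) + ∑ W ∈ T, if pl e' W = pl e W then (nn e W : ℚ) else 0 := by
      intro e e'
      rw [Finset.sum_add_distrib, Finset.sum_add_distrib, hHq, hHq]
      ring
    have h2 : ∑ e : L →ₐ[F] M, ∑ e' ∈ Finset.univ.erase e, ∑ W ∈ T,
        (if pl e' W = pl e W then (nn e W : ℚ) else 0) =
        ∑ P ∈ TL, ∑ W ∈ T, ν W P * c W P * (ν W P - 1) := by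
      rw [Finset.sum_comm (s := TL)]
      rw [← Finset.sum_congr rfl hstep, Finset.sum_comm (s := T)]
      exact Finset.sum_congr rfl fun e _ => Finset.sum_comm
    simp only [h1, Finset.sum_add_distrib, h2]
    congr 1
    have h3 : ∀ e : L →ₐ[F] M, ∑ _e' ∈ Finset.univ.erase e, -(2 * (N * (hgt k u : ℚ) / r)) =
        ((r : ℚ) - 1) * -(2 * (N * hgt k u / r)) := by
      intro e
      rw [Finset.sum_const, Finset.card_erase_of_mem (Finset.mem_univ _), Finset.card_univ, hcard,
        ← hr, nsmul_eq_mul, Nat.cast_sub hr0, Nat.cast_one]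
    rw [Finset.sum_congr rfl fun e _ => h3 e, Finset.sum_const, Finset.card_univ, hcard, ← hr,
      nsmul_eq_mul]
    have : (r : ℚ) ≠ 0 := by positivity
    field_simp
  rw [hsplit] at hge
  have hfin2 : (N : ℚ) * ∑ P ∈ TL, ((ram F P : ℚ) - 1) ≤
      ∑ P ∈ TL, ∑ W ∈ T, ν W P * c W P * (ν W P - 1) := by
    rw [Finset.mul_sum]
    refine Finset.sum_le_sum fun P hP => ?_
    rw [mul_comm]
    exact hest P hP
  have hfin3 : (N : ℚ) * ∑ P ∈ TL, ((ram F P : ℚ) - 1) ≤ N * ((2 * r - 2) * hgt k u) := by
    linarith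
  have hNq : (0 : ℚ) < N := by exact_mod_cast hN0
  have hfin4 := le_of_mul_le_mul_left hfin3 hNq
  rw [hdisc, ← hr]
  exact_mod_cast hfin4

end main

end Pool.Agent.Y735.R
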