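import Pool.Agent.Y735.R.Disc
import Pool.Agent.TH145.GH.Ineq

/-!
Generators which are combinations of the coordinates of a point, and the discriminant of the field
of definition of a point.
-/

set_option autoImplicit false

open FF Pool.Agent.W603.LV Pool.Agent.W603.PV
open scoped IntermediateField

namespace Pool.Agent.Y735.R

universe u v w

/-- Almost all combinations of the coordinates are generators. -/
theorem exists_comb (F : Type v) [Field F] [CharZero F] {L : Type w} [Field L] [Algebra F L]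
    [FiniteDimensional F L] {n : ℕ} (x : Fin (n + 1) → L)
    (hx : IntermediateField.adjoin F (Set.range x) = ⊤) :
    ∃ B : ℕ, ∀ t : ℕ, B ≤ t → F⟮∑ j : Fin (n + 1), (t : L) ^ (j : ℕ) * x j⟯ = ⊤ := by
  classical
  let A := AlgebraicClosure F
  have hA : ∀ y : L, ((minpoly F y).map (algebraMap F A)).Splits := fun y => IsAlgClosed.splits _
  obtain ⟨q, hq⟩ : ∃ q : (L →ₐ[F] A) × (L →ₐ[F] A) → Polynomial A, ∀ p, q p =
    ∑ j : Fin (n + 1), Polynomial.C (p.1 (x j) - p.2 (x j)) * Polynomial.X ^ (j : ℕ) :=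
    ⟨_, fun _ => rfl⟩
  have hq0 : ∀ p : (L →ₐ[F] A) × (L →ₐ[F] A), p.1 ≠ p.2 → q p ≠ 0 := by
    intro p hp h0
    apply hp
    have h1 : ∀ j, p.1 (x j) = p.2 (x j) := by
      intro j
      have h2 := congrArg (fun f => Polynomial.coeff f (j : ℕ)) h0
      simp only [hq, Polynomial.finsetSum_coeff, Polynomial.coeff_C_mul, Polynomial.coeff_X_pow,
        Polynomial.coeff_zero] at h2
      rw [Finset.sum_eq_single j] at h2
      · simpa [sub_eq_zero] using h2
      · intro i _ hij
        rw [if_neg, mul_zero]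
        intro h
        exact hij (Fin.ext h.symm)
      · intro h
        exact absurd (Finset.mem_univ j) h
    have h3 : (⊤ : IntermediateField F L) ≤ IntermediateField.adjoin F (Set.range x) := hx.ge
    ext y
    have h4 : y ∈ IntermediateField.adjoin F (Set.range x) := h3 trivial
    induction h4 using IntermediateField.adjoin_induction with
    | mem y hy =>
      obtain ⟨j, rfl⟩ := hy
      exact h1 j
    | algebraMap c => rw [AlgHom.commutes, AlgHom.commutes]
    | add a b _ _ ha hb => rw [map_add, map_add, ha, hb]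
    | inv a _ ha => rw [map_inv₀, map_inv₀, ha]
    | mul a b _ _ ha hb => rw [map_mul, map_mul, ha, hb]
  have hfin : {t : ℕ | ∃ p : (L →ₐ[F] A) × (L →ₐ[F] A), p.1 ≠ p.2 ∧
      (q p).eval (t : A) = 0}.Finite := by
    have h1 : (⋃ p : (L →ₐ[F] A) × (L →ₐ[F] A), {t : ℕ | p.1 ≠ p.2 ∧
        (q p).eval (t : A) = 0}).Finite := by
      refine Set.finite_iUnion fun p => ?_
      by_cases hp : p.1 = p.2
      · refine Set.finite_empty.subset ?_
        rintro t ⟨h, -⟩
        exact absurd hp h
      · have h2 : ((fun t : ℕ => (t : A)) ⁻¹' {a | (q p).IsRoot a}).Finite :=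
          Set.Finite.preimage (Nat.cast_injective.injOn) (Polynomial.finite_setOfPred_isRoot (hq0 p hp))
        exact h2.subset fun t ht => ht.2
    refine h1.subset ?_
    rintro t ⟨p, hp, h⟩
    exact Set.mem_iUnion.2 ⟨p, hp, h⟩
  obtain ⟨B, hB⟩ := hfin.bddAbove
  refine ⟨B + 1, fun t ht => ?_⟩
  rw [Field.primitive_element_iff_algHom_eq_of_eval' F A hA]
  intro φ ψ hφψ
  by_contra hne
  have h1 : t ≤ B := by
    refine hB ⟨(φ, ψ), hne, ?_⟩
    rw [hq, Polynomial.eval_finsetSum]
    have h2 : φ (∑ j : Fin (n + 1), (t : L) ^ (j : ℕ) * x j) =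
        ψ (∑ j : Fin (n + 1), (t : L) ^ (j : ℕ) * x j) := hφψ
    rw [map_sum, map_sum] at h2
    simp only [map_mul, map_pow, map_natCast] at h2
    rw [← sub_eq_zero, ← Finset.sum_sub_distrib] at h2
    rw [← h2]
    refine Finset.sum_congr rfl fun j _ => ?_
    rw [Polynomial.eval_mul, Polynomial.eval_C, Polynomial.eval_pow, Polynomial.eval_X]
    ring
  omega

variable {k : Type u} [Field k] [IsAlgClosed k] [CharZero k] {L : Type w} [Field L] [Algebra k L]
  [IsFF k L]

/-- The height of a combination of the coordinates. -/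
theorem hgt_comb_le {n : ℕ} (x : Fin (n + 1) → L) {l0 : Fin (n + 1)} (hl : x l0 = 1)
    (c : Fin (n + 1) → L) (hc : ∀ j (P : Place k L), Ge P 0 (c j)) :
    hgt k (∑ j, c j * x j) ≤ pht k x := by
  classical
  obtain ⟨u, hu⟩ : ∃ u, u = ∑ j, c j * x j := ⟨_, rfl⟩
  have hx0 : ∃ j, x j ≠ 0 := ⟨l0, by rw [hl]; exact one_ne_zero⟩
  obtain ⟨T0, hT0⟩ := exists_supp (k := k) Finset.univ x
  obtain ⟨T1, hT1⟩ := exists_supp (k := k) (Finset.univ : Finset Unit) (fun _ => u)
  obtain ⟨T, hT⟩ : ∃ T : Finset (Place k L), T = T0 ∪ T1 := ⟨_, rfl⟩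
  have h1 : ∀ j, ∀ P : Place k L, P.ord (x j) ≠ 0 → P ∈ T := fun j P hP => by
    rw [hT]; exact Finset.mem_union_left _ (hT0 j (Finset.mem_univ j) P hP)
  have h2 : pht k x = ∑ P ∈ T, (- pord P x) := by
    unfold pht
    rw [finsum_eq_sum_of_support_subset (s := T), Finset.sum_neg_distrib]
    intro P hP
    by_contra hcon
    apply hP
    obtain ⟨j, hj, h⟩ := exists_pord P hx0
    simp only
    rw [← h]
    by_contra h'; exact hcon (h1 j P h')
  rw [← hu, h2, hgt_finset u T fun P hP => by
    rw [hT]; exact Finset.mem_union_right _ (hT1 () (Finset.mem_univ _) P hP)]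
  refine Finset.sum_le_sum fun P _ => ?_
  have h3 : pord P x ≤ 0 := by
    have := pord_le P (f := x) (j := l0) (by rw [hl]; exact one_ne_zero)
    rwa [hl, P.ord_one] at this
  have h4 : Ge P (pord P x) u := by
    rw [hu]
    refine Ge.sum _ _ fun j _ => ?_
    by_cases hj : x j = 0
    · rw [hj, mul_zero]; exact Ge.zero
    · have := (hc j P).mul (Or.inr (pord_le P hj) : Ge P (pord P x) (x j))
      rwa [zero_add] at this
  refine max_le ?_ (by omega)
  rcases h4 with h4 | h4
  · rw [h4, P.ord_zero]; omega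
  · omega

variable {F : Type v} [Field F] [Algebra k F] [IsFF k F] [Algebra F L] [IsScalarTower k F L]
  [FiniteDimensional F L]

/-- The discriminant of the field of definition of a point. -/
theorem disc_le_pht {n : ℕ} (x : Fin (n + 1) → L) {l0 : Fin (n + 1)} (hl : x l0 = 1)
    (hx : IntermediateField.adjoin F (Set.range x) = ⊤) :
    disc k F L ≤ (2 * Module.finrank F L - 2) * pht k x := by
  have hF : CharZero F := charZero_of_injective_algebraMap (algebraMap k F).injective
  obtain ⟨B, hB⟩ := exists_comb F x hx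
  have h1 := hB B le_rfl
  obtain ⟨u, hu⟩ : ∃ u, u = ∑ j : Fin (n + 1), (B : L) ^ (j : ℕ) * x j := ⟨_, rfl⟩
  rw [← hu] at h1
  have h2 := disc_le (k := k) (F := F) u (fun M _ _ e e' hee => by
    ext y
    have h4 : y ∈ IntermediateField.adjoin F {u} := by rw [h1]; trivial
    induction h4 using IntermediateField.adjoin_induction with
    | mem y hy =>
      rw [Set.mem_singleton_iff] at hy
      rw [hy]
      exact hee
    | algebraMap c => rw [AlgHom.commutes, AlgHom.commutes]
    | add a b _ _ ha hb => rw [map_add, map_add, ha, hb]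
    | inv a _ ha => rw [map_inv₀, map_inv₀, ha]
    | mul a b _ _ ha hb => rw [map_mul, map_mul, ha, hb])
  refine h2.trans (mul_le_mul_of_nonneg_left ?_ ?_)
  · rw [hu]
    refine hgt_comb_le x hl _ fun j P => ?_
    have : ((B : L) ^ (j : ℕ)) = ((B ^ (j : ℕ) : ℕ) : L) := by push_cast; rfl
    rw [this]
    exact Ge.natCast _
  · have : 0 < Module.finrank F L := Module.finrank_pos
    have : (1 : ℤ) ≤ Module.finrank F L := by exact_mod_cast this
    linarith

end Pool.Agent.Y735.R
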