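import Pool.Agent.Y735.R.Ineq
import Pool.Agent.Y735.R.Conj
import Pool.Agent.TH145.GC.Fin

/-!
Heights of points of bounded degree.
-/

set_option autoImplicit false

open MvPolynomial FF Pool.Agent.W603.LV Pool.Agent.W603.PV Pool.Agent.W602.RG
open Pool.Agent.TH145 Pool.Agent.TH145.GH Pool.Agent.TH145.GC
open Pool.Agent.TH145.MG (DimLE)

namespace Pool.Agent.Y735.R

/-- The height of a point of bounded degree over a function field. -/
theorem pht_le {k0 κ F L : Type} [Field k0] [Field κ] [Field F] [Field L] [IsAlgClosed κ]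
    [CharZero κ] [Algebra κ F] [IsFF κ F] [Algebra κ L] [Algebra F L] [IsScalarTower κ F L]
    [FiniteDimensional F L] [IsFF κ L] (ψ : k0 →+* F) {n m r : ℕ} {A : Type} [Fintype A]
    {dg : A → ℕ} {G : A → MvPolynomial (Fin (n + 1)) F}
    {D : A → (Fin (n + 1) →₀ ℕ) → Derivation ℤ F F} {q : Place κ F → ℤ}
    (hdat : Data κ G dg D q) (hDk : ∀ a I (r : k0), D a I (ψ r) = 0)
    (hSem : ∀ a I, Sem κ (D a I)) (V : Set (MvPolynomial (Fin (n + 1)) k0)) (hV : DimLE k0 V m)
    (hd : 2 * m + 2 * r ≤ ∑ a, (dg a + 1)) (hr : Module.finrank F L ≤ r)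
    {x : Fin (n + 1) → L} {l0 : Fin (n + 1)} (hl : x l0 = 1)
    (hgen : IntermediateField.adjoin F (Set.range x) = ⊤)
    (hxV : ∀ f ∈ V, eval₂ ((algebraMap F L).comp ψ) x f = 0)
    (hxG : ∀ a, eval x (map (algebraMap F L) (G a)) = 0) :
    pht κ x ≤ (m + 3) * ∑ᶠ P : Place κ L, (ram F P : ℤ) * q (under F P) := by
  have hx0 : x ≠ 0 := by
    rintro rfl
    exact zero_ne_one hl
  have h1 := ineq_ext ψ hdat hDk hSem V hV hx0 hxV hxG
  have h2 := disc_le_pht (k := κ) (F := F) x hl hgen
  have h3 : 0 ≤ pht κ x := by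
    have hl0 : x l0 ≠ 0 := by rw [hl]; exact one_ne_zero
    exact (hgt_nonneg _).trans (Pool.Agent.W603.CX.hgt_le_pht (k := κ) x hl0 hl0)
  have h4 : (1 : ℤ) ≤ (∑ a, ((dg a : ℤ) + 1) - 2 * m - 1) - (2 * Module.finrank F L - 2) := by
    have h5 : ((2 * m + 2 * r : ℕ) : ℤ) ≤ ((∑ a, (dg a + 1) : ℕ) : ℤ) := by exact_mod_cast hd
    have h6 : (Module.finrank F L : ℤ) ≤ r := by exact_mod_cast hr
    push_cast at h5
    linarith
  nlinarith

variable {k0 K ι : Type} [Field k0] [Field K] [Algebra k0 K] [IsAlgClosed K] [CharZero K]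
  {y : ι → K} (E : IntermediateField (IntermediateField.adjoin k0 (Set.range y)) K)

theorem adjoin_top {F Ω : Type} [Field F] [Field Ω] [Algebra F Ω] {n : ℕ} (x : Fin (n + 1) → Ω)
    (x' : Fin (n + 1) → IntermediateField.adjoin F (Set.range x)) (h : ∀ j, (x' j : Ω) = x j) :
    IntermediateField.adjoin F (Set.range x') = ⊤ := by
  rw [eq_top_iff]
  rintro ⟨w, hw⟩ -
  have h6 : (IntermediateField.adjoin F (Set.range x')).map
      (IntermediateField.adjoin F (Set.range x)).val = IntermediateField.adjoin F (Set.range x) := by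
    rw [IntermediateField.adjoin_map]
    congr 1
    ext z
    constructor
    · rintro ⟨_, ⟨b, rfl⟩, rfl⟩
      exact ⟨b, (h b).symm⟩
    · rintro ⟨b, rfl⟩
      exact ⟨_, ⟨b, rfl⟩, h b⟩
  have h7 : w ∈ (IntermediateField.adjoin F (Set.range x')).map
      (IntermediateField.adjoin F (Set.range x)).val := by rw [h6]; exact hw
  obtain ⟨v, hv, hvw⟩ := h7
  have h8 : v = ⟨w, hw⟩ := Subtype.ext hvw
  rw [← h8]
  exact hv

/-- The conditions are preserved by embeddings. -/
theorem cond_emb {n : ℕ} {A : Type} {F : A → MvPolynomial (Fin (n + 1)) E.toSubfield}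
    (V : Set (MvPolynomial (Fin (n + 1)) k0)) {l0 : Fin (n + 1)} (L : IntermediateField E K)
    (σ : L →ₐ[E] K) (x : Fin (n + 1) → L)
    (h : (x l0 : K) = 1 ∧ (∀ f ∈ V, eval₂ (algebraMap k0 K) (fun j => (x j : K)) f = 0) ∧
      ∀ a, eval (fun j => (x j : K)) (map E.toSubfield.subtype (F a)) = 0) :
    σ (x l0) = 1 ∧ (∀ f ∈ V, eval₂ (algebraMap k0 K) (fun j => σ (x j)) f = 0) ∧
      ∀ a, eval (fun j => σ (x j)) (map E.toSubfield.subtype (F a)) = 0 := by
  obtain ⟨h1, h2, h3⟩ := h
  let ψ : k0 →+* L := (algebraMap E L).comp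
    ((algebraMap k0 K).codRestrict E.toSubfield (fun r => k0_mem E r))
  have hψ : (algebraMap L K).comp ψ = algebraMap k0 K := by
    ext r
    rfl
  have hψ' : (σ : L →+* K).comp ψ = algebraMap k0 K := by
    ext r
    exact σ.commutes _
  let φ : E.toSubfield →+* L := algebraMap E L
  have hφ : (algebraMap L K).comp φ = E.toSubfield.subtype := by
    ext r
    rfl
  have hφ' : (σ : L →+* K).comp φ = E.toSubfield.subtype := by
    ext r
    exact σ.commutes _
  refine ⟨?_, fun f hf => ?_, fun a => ?_⟩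
  · have h4 : x l0 = 1 := Subtype.ext h1
    rw [h4, map_one]
  · have h4 := hom_eval₂ f ψ (algebraMap L K) x
    rw [hψ] at h4
    have h5 := h2 f hf
    have h6 : eval₂ ψ x f = 0 := by
      apply (algebraMap L K).injective
      rw [h4, map_zero]
      exact h5
    have h7 := hom_eval₂ f ψ (σ : L →+* K) x
    rw [hψ', h6, map_zero] at h7
    exact h7.symm
  · have h4 := hom_eval₂ (F a) φ (algebraMap L K) x
    rw [hφ] at h4
    have h5 := h3 a
    rw [eval_map] at h5
    have h6 : eval₂ φ x (F a) = 0 := by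
      apply (algebraMap L K).injective
      rw [h4, map_zero]
      exact h5
    have h7 := hom_eval₂ (F a) φ (σ : L →+* K) x
    rw [hφ', h6, map_zero] at h7
    rw [eval_map]
    exact h7.symm

/-- The heights of the coefficients of the minimal polynomials are bounded. -/
theorem heights_alg {n m r : ℕ} {A : Type} [Fintype A] {dg : A → ℕ}
    (hy : AlgebraicIndependent k0 y)
    [FiniteDimensional (IntermediateField.adjoin k0 (Set.range y)) E]
    {F : A → MvPolynomial (Fin (n + 1)) E.toSubfield}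
    {DE : A → (Fin (n + 1) →₀ ℕ) → E.toSubfield → E.toSubfield}
    (hG : GC.Gen F dg DE)
    (D : A → (Fin (n + 1) →₀ ℕ) → Derivation ℤ K K)
    (hDE : ∀ a I (x : E.toSubfield), D a I x = (DE a I x : K))
    (hDk : ∀ a I (r : k0), D a I (algebraMap k0 K r) = 0)
    (hDy : ∀ a I j, ∃ r : k0, D a I (y j) = algebraMap k0 K r)
    (hd : 2 * m + 2 * r ≤ ∑ a, (dg a + 1)) (V : Set (MvPolynomial (Fin (n + 1)) k0))
    (hV : DimLE k0 V m) (l0 : Fin (n + 1)) (i : ι) :
    ∃ B : ℤ, ∀ x : Fin (n + 1) → K, x l0 = 1 →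
      (∀ f ∈ V, eval₂ (algebraMap k0 K) x f = 0) →
      (∀ a, eval x (map E.toSubfield.subtype (F a)) = 0) →
      ∀ LE : IntermediateField E K, FiniteDimensional E LE → Module.finrank E LE ≤ r →
      (∀ j, x j ∈ LE) → ∀ c : Fin (n + 1) → ℕ,
      (minpoly E (∑ j, (c j : K) * x j)).natDegree ≤ r ∧
      ∀ j, hgt (kap k0 y i) (⟨((minpoly E (∑ j, (c j : K) * x j)).coeff j : K),
        subset_LL y _ i ((minpoly E (∑ j, (c j : K) * x j)).coeff j).2⟩ :
        LL k0 y (E : Set K) i) ≤ B := by
  classical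
  have hFF : IsFF (kap k0 y i) (LL k0 y (E : Set K) i) := LL_ff E hy i
  have hac : IsAlgClosed (kap k0 y i) := acl_isAlgClosed _
  have hcz : CharZero (kap k0 y i) := charZero_of_injective_algebraMap
    (algebraMap ℚ (kap k0 y i)).injective
  have hczE : CharZero E := charZero_of_injective_algebraMap (algebraMap ℚ E).injective
  obtain ⟨φ, D', e, hφ, hD', hdat⟩ := exists_data_L E hy hG D hDE hDk hDy i
  have hSem : ∀ a I, Sem (kap k0 y i) (D' a I) := fun a I c => by
    refine ⟨⟨_, der_kap (D a I) (hDk a I) (hDy a I) i c.2⟩, ?_⟩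
    apply Subtype.ext
    exact hD' a I _
  let ψ : k0 →+* LL k0 y (E : Set K) i :=
    { toFun := fun r => ⟨algebraMap k0 K r, subset_LL y _ i (k0_mem E r)⟩
      map_one' := Subtype.ext (map_one _)
      map_mul' := fun a b => Subtype.ext (map_mul _ a b)
      map_zero' := Subtype.ext (map_zero _)
      map_add' := fun a b => Subtype.ext (map_add _ a b) }
  have hDψ : ∀ a I (r : k0), D' a I (ψ r) = 0 := fun a I r => by
    apply Subtype.ext
    rw [hD']
    exact hDk a I r
  obtain ⟨C, hC⟩ := TH812.GV2.sum_under (k := kap k0 y i) hdat.e_nonneg hdat.fin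
  let _ : Algebra E (LL k0 y (E : Set K) i) := RingHom.toAlgebra
    { toFun := fun r => ⟨(r : K), subset_LL y _ i r.2⟩
      map_one' := rfl
      map_mul' := fun a b => rfl
      map_zero' := rfl
      map_add' := fun a b => rfl }
  have hst : IsScalarTower E (LL k0 y (E : Set K) i) K :=
    IsScalarTower.of_algebraMap_eq fun _ => rfl
  have key := fun (x : Fin (n + 1) → K)
    (hx : x l0 = 1 ∧ (∀ f ∈ V, eval₂ (algebraMap k0 K) x f = 0) ∧
      ∀ a, eval x (map E.toSubfield.subtype (F a)) = 0) (LE : IntermediateField E K)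
      (hfd : FiniteDimensional E LE) (hr : Module.finrank E LE ≤ r) (hxL : ∀ j, x j ∈ LE)
      (c : Fin (n + 1) → ℕ) =>
    hgt_minpoly (κ := kap k0 y i) (E := E) (F := LL k0 y (E : Set K) i) (r := r)
    (fun x : Fin (n + 1) → K => x l0 = 1 ∧ (∀ f ∈ V, eval₂ (algebraMap k0 K) x f = 0) ∧
      ∀ a, eval x (map E.toSubfield.subtype (F a)) = 0)
    (fun L σ x h => cond_emb E V L σ x h) ((m + 3) * (C * r)) (by
      rintro x ⟨hxl, hxV, hxF⟩ LE hfd hr hxL c
      obtain ⟨h1, h2⟩ := finrank_adjoin_le (F := LL k0 y (E : Set K) i) (Set.range x) LE (by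
        rintro _ ⟨j, rfl⟩
        exact hxL j)
      obtain ⟨L, hL⟩ : ∃ L, L = IntermediateField.adjoin (LL k0 y (E : Set K) i) (Set.range x) :=
        ⟨_, rfl⟩
      have hmem : ∀ j, x j ∈ IntermediateField.adjoin (LL k0 y (E : Set K) i) (Set.range x) :=
        fun j => IntermediateField.subset_adjoin _ _ ⟨j, rfl⟩
      obtain ⟨x', hx'⟩ : ∃ x' : Fin (n + 1) →
        IntermediateField.adjoin (LL k0 y (E : Set K) i) (Set.range x), ∀ j, (x' j : K) = x j :=
        ⟨fun j => ⟨x j, hmem j⟩, fun _ => rfl⟩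
      have hLF : IsFF (kap k0 y i)
          (IntermediateField.adjoin (LL k0 y (E : Set K) i) (Set.range x)) :=
        isFF_of_finite (F := LL k0 y (E : Set K) i)
      have hxl' : x' l0 = 1 := Subtype.ext ((hx' l0).trans hxl)
      have h3 := pht_le ψ hdat hDψ hSem V hV hd (h2.trans hr) hxl' (adjoin_top x x' hx')
        (fun f hf => by
          apply Subtype.ext
          have h4 := hom_eval₂ f ((algebraMap (LL k0 y (E : Set K) i)
            (IntermediateField.adjoin (LL k0 y (E : Set K) i) (Set.range x))).comp ψ)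
            (algebraMap (IntermediateField.adjoin (LL k0 y (E : Set K) i) (Set.range x)) K) x'
          refine h4.trans ?_
          have h5 : (fun j => algebraMap (IntermediateField.adjoin (LL k0 y (E : Set K) i)
            (Set.range x)) K (x' j)) = x := funext hx'
          rw [h5]
          exact hxV f hf)
        (fun a => by
          apply Subtype.ext
          rw [eval_map, eval₂_map]
          have h4 := hom_eval₂ (F a) ((algebraMap (LL k0 y (E : Set K) i)
            (IntermediateField.adjoin (LL k0 y (E : Set K) i) (Set.range x))).comp φ)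
            (algebraMap (IntermediateField.adjoin (LL k0 y (E : Set K) i) (Set.range x)) K) x'
          refine h4.trans ?_
          have h5 : (fun j => algebraMap (IntermediateField.adjoin (LL k0 y (E : Set K) i)
            (Set.range x)) K (x' j)) = x := funext hx'
          have h6 : (algebraMap (IntermediateField.adjoin (LL k0 y (E : Set K) i)
            (Set.range x)) K).comp ((algebraMap (LL k0 y (E : Set K) i)
            (IntermediateField.adjoin (LL k0 y (E : Set K) i) (Set.range x))).comp φ) =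
            E.toSubfield.subtype := by
            ext r
            exact hφ r
          rw [h5, h6]
          have h7 := hxF a
          rw [eval_map] at h7
          exact h7)
      have hfin := (hC (IntermediateField.adjoin (LL k0 y (E : Set K) i) (Set.range x))).2
      have h4 : pht (kap k0 y i) x' ≤ (m + 3) * (C * r) := by
        refine h3.trans (mul_le_mul_of_nonneg_left (hfin.trans ?_) (by positivity))
        exact mul_le_mul_of_nonneg_left (by exact_mod_cast h2.trans hr) (by positivity)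
      refine ⟨_, h1, sum_mem fun j _ => mul_mem (natCast_mem _ (c j)) (hmem j), ?_⟩
      have h5 := hgt_comb_le (k := kap k0 y i) x' hxl' (fun j => (c j : _))
        (fun j P => Ge.natCast _)
      refine le_trans (le_of_eq ?_) (h5.trans h4)
      congr 1
      apply Subtype.ext
      push_cast
      exact Finset.sum_congr rfl fun j _ => by rw [hx' j]) hx hfd hr hxL c
  refine ⟨r * ((m + 3) * (C * r)), fun x hxl hxV hxF LE hfd hr hxL c => ?_⟩
  exact key x ⟨hxl, hxV, hxF⟩ LE hfd hr hxL c

end Pool.Agent.Y735.R
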