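import Pool.Agent.Y735.R.Ineq

/-!
The element of the function field of the point which gives the height inequality.
-/

set_option autoImplicit false

open MvPolynomial FF Pool.Agent.W603.LV Pool.Agent.W603.PV Pool.Agent.TH145.GH
open Pool.Agent.TH145.MG (DimLE)
open Pool.Agent.TH145

namespace Pool.Agent.Y735.R

/-- **The local height inequalities over finite extensions.** -/
theorem theta_ext {k0 κ F L : Type} [Field k0] [Field κ] [Field F] [Field L] [IsAlgClosed κ]
    [CharZero κ] [Algebra κ F] [IsFF κ F] [Algebra κ L] [Algebra F L] [IsScalarTower κ F L]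
    [FiniteDimensional F L] [IsFF κ L] (ψ : k0 →+* F) {n m : ℕ} {A : Type} [Fintype A]
    {dg : A → ℕ} {G : A → MvPolynomial (Fin (n + 1)) F}
    {D : A → (Fin (n + 1) →₀ ℕ) → Derivation ℤ F F} {q : Place κ F → ℤ}
    (hdat : GC.Data κ G dg D q) (hDk : ∀ a I (r : k0), D a I (ψ r) = 0)
    (hSem : ∀ a I, Sem κ (D a I)) (V : Set (MvPolynomial (Fin (n + 1)) k0)) (hV : DimLE k0 V m)
    {x : Fin (n + 1) → L} (hx : x ≠ 0)
    (hxV : ∀ f ∈ V, eval₂ ((algebraMap F L).comp ψ) x f = 0)
    (hxG : ∀ a, eval x (map (algebraMap F L) (G a)) = 0) :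
    ∃ Θ : L, Θ ≠ 0 ∧ ∃ c : ℤ, ∑ a, ((dg a : ℤ) + 1) - 2 * m - 1 ≤ c ∧ ∀ P : Place κ L,
      -c * pord P x - (((ram F P : ℤ) - 1) + (m + 3) * (ram F P * q (under F P))) ≤ P.ord Θ := by
  classical
  have hF : CharZero F := charZero_of_injective_algebraMap (algebraMap κ F).injective
  have hL : CharZero L := charZero_of_injective_algebraMap (algebraMap κ L).injective
  let _ : Algebra k0 F := ψ.toAlgebra
  let _ : Algebra k0 L := ((algebraMap F L).comp ψ).toAlgebra
  have hst : IsScalarTower k0 F L := IsScalarTower.of_algebraMap_eq fun _ => rfl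
  obtain ⟨E, hE⟩ : ∃ E : A → (Fin (n + 1) →₀ ℕ) → Derivation k0 F F, ∀ a I f, E a I f = D a I f :=
    ⟨fun a I => toDer (D a I) (hDk a I), fun _ _ _ => rfl⟩
  choose D' hD' using fun a I => exists_ext_der (L := L) (E a I)
  have hD1 : ∀ a I f, D' a I (algebraMap F L f) = algebraMap F L (D a I f) := fun a I f => by
    rw [hD', hE]
  have hS' : ∀ a I, Sem κ ((D' a I).restrictScalars ℤ) := by
    intro a I c
    obtain ⟨c', hc'⟩ := hSem a I c
    refine ⟨c', ?_⟩
    rw [IsScalarTower.algebraMap_apply κ F L, IsScalarTower.algebraMap_apply κ F L, ← hc']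
    exact hD1 a I _
  obtain ⟨ql, hql⟩ : ∃ ql : Place κ L → ℤ, ∀ P, ql P = ram F P * q (under F P) :=
    ⟨_, fun _ => rfl⟩
  obtain ⟨el, hel⟩ : ∃ el : Place κ L → ℤ, ∀ P, el P = ((ram F P : ℤ) - 1) + ql P :=
    ⟨_, fun _ => rfl⟩
  have hql0 : ∀ P, 0 ≤ ql P := fun P => by
    rw [hql]
    exact mul_nonneg (by positivity) (hdat.e_nonneg _)
  have hram1 : ∀ P : Place κ L, (1 : ℤ) ≤ ram F P := fun P => by
    exact_mod_cast (ram_spec (F := F) P).1
  have hqfin : {P : Place κ L | ql P ≠ 0}.Finite := by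
    refine (finite_over_set (L := L) hdat.fin).subset fun P hP => ?_
    have hP' : ql P ≠ 0 := hP
    rw [hql] at hP'
    exact right_ne_zero_of_mul hP'
  have hrfin : {P : Place κ L | (ram F P : ℤ) - 1 ≠ 0}.Finite := ram_finite (F := F)
  have hefin : {P : Place κ L | el P ≠ 0}.Finite := by
    refine (hrfin.union hqfin).subset fun P hP => ?_
    by_contra hcon
    simp only [Set.mem_union, Set.mem_ofPred_eq, not_or, not_not] at hcon
    apply hP
    rw [hel, hcon.1, hcon.2, add_zero]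
  have hsys : TH812.GV2.SysS κ (fun a => map (algebraMap F L) (G a)) dg
      (fun a I => (D' a I).restrictScalars ℤ) (fun _ _ => 0) ql el := by
    refine ⟨fun a => (hdat.hom a).map _, ?_, hql0, fun P => ?_, fun P a I hI => ?_,
      fun P δ hδ a I hI g f hf => ?_, hqfin, hefin⟩
    · intro a b I J hI hJ
      rw [coeff_map]
      change D' a I (algebraMap F L _) = _
      rw [hD1]
      have h1 := hdat.dual a b I J hI hJ
      by_cases hab : a = b
      · by_cases hIJ : I = J
        · rw [h1.1 hab hIJ, if_pos hab, if_pos hIJ]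
          simp
        · rw [h1.2 (Or.inr hIJ), if_pos hab, if_neg hIJ]
          simp
      · rw [h1.2 (Or.inl hab), if_neg hab, map_zero]
    · rw [hel]
      have h1 := hram1 P
      have h2 := hql0 P
      omega
    · have hloss : ∀ v f, Ge v 0 f → Ge v (-q v) (D a I f) := fun v f hf =>
        hdat.loss v f hf a I hI
      rw [hel, hql]
      exact TH812.GV.loss_ext (D := D a I) hdat.e_nonneg hloss (hS' a I) (hD1 a I) P
        (Or.inr (by rw [ord_unif]; omega))
    · refine (TH812.GV2.sem_loc hδ (hS' a I) hf).mono ?_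
      have h1 := hql0 P
      omega
  have htr : Algebra.trdeg k0 (Pool.Agent.W602.GT.coords k0 x) ≤ m := by
    refine hV L x hx fun f hf => ?_
    exact hxV f hf
  obtain ⟨W, hWm, hxW, hDW⟩ := TH812.GV.exists_W hx htr
  obtain ⟨l0, hl0⟩ := Function.ne_iff.1 hx
  have hl0' : x l0 ≠ 0 := hl0
  obtain ⟨v, hdet, hv⟩ := TH812.GV.exists_adapted (TH812.GV.gw dg
    (fun a I => (D' a I).restrictScalars ℤ) x l0) TH812.GV.Gn.lev TH812.GV.span_gw
  obtain ⟨t0, ht0⟩ := TH812.GV.sel_x hx hdet hv
  have hselv := TH812.GV2.sel_v2 hsys hl0' hdet hv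
  have hT := TH812.GV.card_T hdet W hWm hxW fun a I _ =>
    hDW ((D' a I).restrictScalars ℤ) (fun r => (D' a I).map_algebraMap r)
  have hwt := TH812.GV.sum_wt (d := dg) ht0 hT ∅ (fun a _ => hselv a (hxG a))
  rw [Finset.compl_empty] at hwt
  refine ⟨_, hdet, -∑ t, (v t).wt dg, by linarith, fun P => ?_⟩
  have h1 := TH812.GV2.local_ge2 hsys hl0' v hdet hv hT ∅ (fun a ha => absurd ha (by simp))
    (fun a ha => absurd ha (by simp)) P
  rw [Finset.sum_empty, if_pos rfl] at h1
  have h2 := hel P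
  have h3 := hql P
  rw [neg_neg, ← h3]
  linarith

end Pool.Agent.Y735.R
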